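import Pool.Agent.MP_3924c3_nt.Red

/-! A basis of the span of the finite multiple zeta values. -/

open Finset Polynomial Filter

namespace Pool.Agent.MP_3924c3_nt

open Pool.Agent.MP_cbe134_nt.FF

variable {F : Type*} [Field F] [Fintype F] {P : Let F (RatFunc.X : RatFunc F) → F[X][X]}

omit [Fintype F] in
lemma lift_span {S : Set (ℕ → RatFunc F)} {W : Submodule (RatFunc F) (FA F)}
    (h : ∀ x ∈ S, ∃ α ∈ W, (x, α) ∈ Red F) {x : ℕ → RatFunc F}
    (hx : x ∈ Submodule.span (RatFunc F) S) : ∃ α ∈ W, (x, α) ∈ Red F := by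
  induction hx using Submodule.span_induction with
  | mem x hx => exact h x hx
  | zero => exact ⟨0, zero_mem _, zero_mem _⟩
  | add x y _ _ hx hy =>
    obtain ⟨α, h1, h2⟩ := hx
    obtain ⟨β, h3, h4⟩ := hy
    exact ⟨α + β, add_mem h1 h3, add_mem h2 h4⟩
  | smul c x _ hx =>
    obtain ⟨α, h1, h2⟩ := hx
    exact ⟨c • α, W.smul_mem c h1, (Red F).smul_mem h2 c⟩

omit [Fintype F] in
lemma Red_mul {x y : ℕ → RatFunc F} {α β : FA F} (h : (x, α) ∈ Red F) (h' : (y, β) ∈ Red F) :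
    (x * y, α * β) ∈ Red F := mul_mem h h'

lemma lift_Slt {w r : ℕ} {x : ℕ → RatFunc F} (hx : x ∈ Slt F RatFunc.X w r) :
    ∃ α ∈ ZA F w, (x, α) ∈ Red F := by
  refine lift_span ?_ hx
  rintro _ ⟨s, h1, h2, -, rfl⟩
  exact ⟨_, Submodule.subset_span ⟨⟨s, fun {a} ha => h1 a ha, h2⟩, rfl⟩, Red_fmzv s⟩

/-- the weight of a basis element -/
noncomputable def wE (A : ℕ × List (Let F (RatFunc.X : RatFunc F))) : ℕ := qq F * A.1 + wtL A.2

lemma exists_E (hP : Adapted F RatFunc.X P) : ∃ E : ℕ × List (Let F RatFunc.X) → FA F,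
    ∀ A, E A ∈ ZA F (wE A) ∧ (vp F RatFunc.X ^ A.1 * Wlt (la P) A.2, E A) ∈ Red F := by
  have h : ∀ j, vp F (RatFunc.X : RatFunc F) ^ j ∈ Slt F RatFunc.X (qq F * j) (qq F * j) :=
    fun j => by
      induction j with
      | zero => exact one_mem_Slt
      | succ j ih => rw [pow_succ]; exact tr_X.mul_lt ih (vp_mem tr_X)
  choose E h1 h2 using fun A : ℕ × List (Let F RatFunc.X) =>
    lift_Slt (tr_X.mul_lt (h A.1) (tr_X.word_mem hP A.2))
  exact ⟨E, fun A => ⟨h1 A, h2 A⟩⟩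

variable {E : ℕ × List (Let F (RatFunc.X : RatFunc F)) → FA F}

lemma ZA_eq (hP : Adapted F RatFunc.X P)
    (hE : ∀ A, E A ∈ ZA F (wE A) ∧ (vp F RatFunc.X ^ A.1 * Wlt (la P) A.2, E A) ∈ Red F) (w : ℕ) :
    ZA F w = Submodule.span (RatFunc F) (E '' {A | wE A = w}) := by
  refine le_antisymm (Submodule.span_le.2 ?_) (Submodule.span_le.2 ?_)
  swap
  · rintro _ ⟨A, rfl, rfl⟩
    exact (hE A).1
  rintro _ ⟨c, rfl⟩
  suffices h : ∃ α ∈ Submodule.span (RatFunc F) (E '' {A | wE A = w}),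
      (Wlt (SS F RatFunc.X) c.blocks, α) ∈ Red F by
    obtain ⟨α, h1, h2⟩ := h
    rwa [Red_unique h2 (Red_fmzv _)] at h1
  refine lift_span ?_ (Wlt_mem_RB tr_X hP c.blocks fun a ha => c.blocks_pos ha)
  rintro _ ⟨s, b, L, -, ⟨β, hβ⟩, h3, rfl⟩
  have h4 : (fun D => β.eval (RatFunc.X ^ qq F ^ D),
      algebraMap (RatFunc F) (FA F) (β.eval RatFunc.X)) ∈ Red F := by
    have h5 : aeval _ β ∈ Red F := Algebra.adjoin_le (Set.singleton_subset_iff.2 Red_frob)
      (aeval_mem_adjoin_singleton _ _)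
    rw [aeval_prod_apply, aeval_algebraMap_apply, coe_aeval_eq_eval] at h5
    convert h5 using 2
    ext D
    rw [aeval_pi_apply₂, coe_aeval_eq_eval]
  by_cases hs : qq F ∣ s
  · obtain ⟨j, rfl⟩ := hs
    refine ⟨_, ?_, Red_congr (Red_mul h4 (hE (j, L)).2) fun d => ?_⟩
    · rw [← Algebra.smul_def]
      exact Submodule.smul_mem _ _ (Submodule.subset_span ⟨(j, L), h3.trans c.blocks_sum, rfl⟩)
    · simp only [Pi.mul_apply, letK_succ tr_X hβ, Pi.pow_apply, vp_succ tr_X, pow_mul, mul_assoc]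
  · obtain ⟨η, hη⟩ := Red_eta (F := F)
    refine ⟨_, ?_, Red_congr (Red_mul (Red_mul h4 (pow_mem hη s : (_ ^ s, η ^ s) ∈ Red F))
      (hE (0, L)).2) fun d => ?_⟩
    · simp [eval_eq_zero hβ hs]
    · simp [letK_succ tr_X hβ]

lemma indep_E (hP : Adapted F RatFunc.X P)
    (hE : ∀ A, E A ∈ ZA F (wE A) ∧ (vp F RatFunc.X ^ A.1 * Wlt (la P) A.2, E A) ∈ Red F) :
    LinearIndependent (RatFunc F) E := by
  classical
  have hq := two_le_q (F := F)
  refine linearIndependent_iff'.2 fun s g hg i₀ hi₀ => ?_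
  obtain ⟨b, hb⟩ := IsLocalization.exist_integer_multiples (nonZeroDivisors F[X]) s g
  choose! a ha using hb
  simp only [← RatFunc.aeval_X_left_eq_algebraMap, Algebra.smul_def] at ha
  have hW : ∀ i ∈ s, wE i ≤ s.sup wE := fun i => le_sup
  generalize s.sup wE = W at hW
  have := finite_St (tr_X (F := F)) W
  let _ := Fintype.ofFinite (St F (RatFunc.X : RatFunc F) W)
  obtain ⟨T, c, hT, H⟩ := exists_sys tr_X hP W
  let σ : ℕ × List (Let F (RatFunc.X : RatFunc F)) → ℕ × List (Let F (RatFunc.X : RatFunc F)) :=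
    fun i => (W - wE i, i.2)
  let a' : St F (RatFunc.X : RatFunc F) W → F[X] := fun A => ∑ i ∈ s, if σ i = A.1 then a i else 0
  have hσ : ∀ i ∈ s, (σ i).1 + wtL (σ i).2 + qq F * i.1 = W := fun i hi => by
    have := hW i hi
    simp only [σ, wE] at this ⊢
    omega
  have h0 := sum_mem fun i (_ : i ∈ s) => (Red F).smul_mem (hE i).2 (g i)
  simp only [Prod.smul_mk, ← prod_mk_sum, hg] at h0
  have h1 := Red_mul (Red_poly fun D =>
    (∏ i ∈ range (D - 1), (X - (X ^ qq F) ^ qq F ^ i)) ^ W * b.1) h0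
  rw [mul_zero] at h1
  suffices h2 : (fun D => aeval RatFunc.X (∑ A, a' A * T (D - 1) A), 0) ∈ Red F by
    obtain ⟨D₀, h2⟩ := dvd_of_Red h2
    have h3 := congrFun (H.indep_mod tr_X gen_X a' D₀ h2) ⟨σ i₀, by have := hσ i₀ hi₀; omega⟩
    simp only [a'] at h3
    have hinj : ∀ i ∈ s, i ≠ i₀ → σ i ≠ σ i₀ := fun i hi hne e => by
      have h4 := hσ i hi
      have := hσ i₀ hi₀
      rw [e] at h4
      exact hne (Prod.ext (Nat.eq_of_mul_eq_mul_left (show 0 < qq F by omega) (by omega))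
        (congrArg Prod.snd e :))
    rw [sum_eq_single_of_mem i₀ hi₀ fun i hi hne => if_neg (hinj i hi hne), if_pos rfl] at h3
    have h4 := ha i₀ hi₀
    rw [h3, Pi.zero_apply, map_zero, eq_comm, mul_eq_zero] at h4
    exact h4.resolve_left (tr_X.aeval_ne (nonZeroDivisors.coe_ne_zero b))
  refine Red_congr h1 fun d => ?_
  · simp only [a', map_sum, map_mul, hT, sum_mul, Nat.add_sub_cancel, Pi.mul_apply, Pi.smul_apply,
      Finset.sum_apply, smul_eq_mul, mul_sum, Pi.pow_apply, vp_succ tr_X]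
    rw [sum_comm]
    refine sum_congr rfl fun i hi => ?_
    rw [sum_eq_single ⟨σ i, by have := hσ i hi; omega⟩ (fun A _ hA => by
      rw [if_neg fun e => hA (Subtype.ext e.symm), map_zero, zero_mul]) (by simp), if_pos rfl,
      ha i hi, Tk]
    have h3 : aeval (RatFunc.X : RatFunc F) ((∏ i ∈ range d, (X - (X ^ qq F) ^ qq F ^ i) : F[X]) ^ W) =
        LL F RatFunc.X d ^ W := by
      simp only [map_pow, map_prod, map_sub, aeval_X, LL, ell]
    have h4 := tr_X.LL_ne (F := F) (k := RatFunc F) d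
    have h5 := congrArg (LL F (RatFunc.X : RatFunc F) d ^ ·) (hσ i hi)
    dsimp only at h5 ⊢
    rw [h3, ← h5, pow_add _ _ (qq F * i.1), ← pow_mul, inv_pow]
    field_simp
    rfl

end Pool.Agent.MP_3924c3_nt
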