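import Mathlib

/-! Relations along an ultrafilter can be chosen of bounded degree. -/

open Finset Polynomial Filter

namespace Pool.Agent.MP_3924c3_nt

section sh

variable {R : Type*} [CommRing R]

/-- the quotient of the division by `X ^ n` -/
noncomputable def sh (n : ℕ) (p : R[X]) : R[X] := divX^[n] p

lemma coeff_sh (n : ℕ) (p : R[X]) (i : ℕ) : (sh n p).coeff i = p.coeff (i + n) := by
  induction n generalizing i with
  | zero => rfl
  | succ n ih => rw [sh, Function.iterate_succ_apply', coeff_divX, ← sh, ih]; congr 1; omega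

lemma sh_add (n : ℕ) (p p' : R[X]) : sh n (p + p') = sh n p + sh n p' := by
  ext i; simp [coeff_sh]

lemma sh_C_mul (n : ℕ) (a : R) (p : R[X]) : sh n (C a * p) = C a * sh n p := by
  ext i; simp [coeff_sh]

lemma sh_sh (a b : ℕ) (p : R[X]) : sh a (sh b p) = sh (a + b) p := by
  ext i; simp [coeff_sh, add_assoc]

lemma sh_X_pow_mul (n : ℕ) (p : R[X]) : sh n (X ^ n * p) = p := by
  ext i; simp [coeff_sh, coeff_X_pow_mul]

lemma sh_eq_zero {n : ℕ} {p : R[X]} (h : p.natDegree < n) : sh n p = 0 := by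
  ext i; rw [coeff_sh, coeff_eq_zero_of_natDegree_lt (by omega), coeff_zero]

lemma sh_succ (n : ℕ) (p : R[X]) : X * sh (n + 1) p = sh n p - C (p.coeff n) := by
  rw [sh, Function.iterate_succ_apply', ← sh, eq_sub_iff_add_eq, ← zero_add n, ← coeff_sh,
    zero_add, X_mul_divX_add]

lemma sh_X_mul (n : ℕ) (p : R[X]) : ∃ a, sh n (X * p) = X * sh n p + C a := by
  cases n with
  | zero => exact ⟨0, by simp [sh]⟩
  | succ n =>
    refine ⟨p.coeff n, ?_⟩
    rw [sh_succ, sub_add_cancel]
    ext i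
    rw [coeff_sh, coeff_sh, ← add_assoc, coeff_X_mul]

lemma natDegree_sh {n m : ℕ} {p : R[X]} (h : p.natDegree ≤ m + n) : (sh n p).natDegree ≤ m :=
  natDegree_le_iff_coeff_eq_zero.2 fun i hi => by
    rw [coeff_sh, coeff_eq_zero_of_natDegree_lt (by omega)]

end sh

variable {F : Type*} [Field F]

/-- sequences vanishing along a filter -/
def Null (R : Type*) [CommRing R] (U : Filter ℕ) : Submodule R (ℕ → R) where
  carrier := {x | ∀ᶠ J in U, x J = 0}
  add_mem' := fun ha hb => (ha.and hb).mono fun J h => by simp [h.1, h.2]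
  zero_mem' := Eventually.of_forall fun _ => rfl
  smul_mem' := fun c x hx => hx.mono fun J h => by simp [h]

lemma mkQ_congr {R : Type*} [CommRing R] {U : Filter ℕ} {x y : ℕ → R} (h : ∀ᶠ J in U, x J = y J) :
    (Null R U).mkQ x = (Null R U).mkQ y :=
  (Submodule.Quotient.eq _).2 (h.mono fun J e => by simp [e])

theorem bounded [Finite F] {S : Type*} [Fintype S] (U : Ultrafilter ℕ) (Q : ℕ → ℕ)
    (hQ : ∀ J, 1 ≤ Q J) (L : ℕ → S → F[X]) (c : ℕ)
    (hL : ∀ᶠ J in U, ∀ A, (L J A).natDegree ≤ c * Q J) (β : S → F[X][X])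
    (hβ : ∀ᶠ J in U, ∑ A, (β A).eval (X ^ Q J) * L J A = 0) (h0 : β ≠ 0) :
    ∃ β' : S → F[X][X], β' ≠ 0 ∧ (∀ᶠ J in U, ∑ A, (β' A).eval (X ^ Q J) * L J A = 0) ∧
      (∀ A, β' A ≠ 0 → β A ≠ 0) ∧ ∀ A, (β' A).natDegree ≤ Fintype.card S * (c + 1) + 1 := by
  classical
  obtain ⟨A₀, hA₀, hmax⟩ := exists_max_image (univ.filter fun A => β A ≠ 0)
    (fun A => (β A).natDegree) (by
      obtain ⟨A, hA⟩ := Function.ne_iff.1 h0
      exact ⟨A, by simpa using hA⟩)
  replace hA₀ : β A₀ ≠ 0 := by simpa using hA₀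
  replace hmax : ∀ A, (β A).natDegree ≤ (β A₀).natDegree := fun A => by
    by_cases e : β A = 0
    · simp [e]
    · exact hmax A (by simpa using e)
  set B := Fintype.card S * (c + 1) + 1 with hB
  by_cases hn : (β A₀).natDegree ≤ B
  · exact ⟨β, h0, hβ, fun _ h => h, fun A => (hmax A).trans hn⟩
  obtain ⟨n, hn⟩ : ∃ n, (β A₀).natDegree = n + B := ⟨(β A₀).natDegree - B, by omega⟩
  let π := (Null F[X] U).mkQ
  let g : Option (S × Fin (c + 1)) → ℕ → F[X] := fun o =>
    o.elim 1 fun p J => sh (p.2 * Q J) (L J p.1)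
  let W := (Submodule.span F[X] (Set.range (π ∘ g))).comap π
  have key : ∀ {x y : ℕ → F[X]}, x ∈ W → (∀ᶠ J in U, y J = x J) → y ∈ W := fun hx h => by
    rwa [Submodule.mem_comap, mkQ_congr h]
  let V₀ : (ℕ → F[X]) → Prop := fun x => ∀ j, (fun J => sh (j * Q J) (x J)) ∈ W
  have v1 : ∀ x y, V₀ x → V₀ y → V₀ (x + y) := fun x y hx hy j =>
    key (add_mem (hx j) (hy j)) (Eventually.of_forall fun J => sh_add _ _ _)
  have v2 : ∀ (a : F) x, V₀ x → V₀ ((C a : F[X]) • x) := fun a x hx j =>
    key (W.smul_mem (C a) (hx j)) (Eventually.of_forall fun J => sh_C_mul _ _ _)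
  have v3 : ∀ x, V₀ x → V₀ ((X : F[X]) • x) := fun x hx j => by
    choose a ha using fun J => sh_X_mul (j * Q J) (x J)
    obtain ⟨b, hb⟩ := (U.map a).eq_pure_of_finite
    have h1 : ∀ᶠ J in U, a J = b := by
      have : {b} ∈ U.map a := by rw [hb]; simp
      exact this
    have h2 : g none ∈ W := Submodule.subset_span ⟨none, rfl⟩
    exact key (add_mem (W.smul_mem X (hx j)) (W.smul_mem (C b) h2)) (h1.mono fun J e => by
      simp [ha, e, g])
  let V : Submodule F[X] (ℕ → F[X]) :=
    { carrier := V₀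
      add_mem' := v1 _ _
      zero_mem' := fun j => key W.zero_mem (Eventually.of_forall fun J => by
        ext; simp [coeff_sh])
      smul_mem' := fun h x hx => by
        induction h using Polynomial.induction_on with
        | C a => exact v2 a x hx
        | add p p' hp hp' => rw [add_smul]; exact v1 _ _ hp hp'
        | monomial m a ih => rw [pow_succ', mul_left_comm, mul_smul]; exact v3 _ ih }
  have v4 : ∀ A, (fun J => L J A) ∈ V := fun A j => by
    by_cases h : j < c + 1
    · exact Submodule.subset_span ⟨some (A, ⟨j, h⟩), rfl⟩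
    · refine key W.zero_mem (hL.mono fun J e => sh_eq_zero ((e A).trans_lt ?_))
      exact Nat.mul_lt_mul_of_pos_right (by omega) (hQ J)
  let ρ : ℕ → ℕ → F[X] := fun a J => ∑ A, (sh a (β A)).eval (X ^ Q J) * L J A
  have v5 : ∀ a, ρ a ∈ V := fun a => by
    induction a with
    | zero => exact fun j => key (V.zero_mem j) (hβ.mono fun J e => congrArg _ e)
    | succ a ih =>
      intro j
      have h1 := sub_mem ih (V.sum_mem fun A (_ : A ∈ univ) =>
        V.smul_mem ((β A).coeff a) (v4 A)) (j + 1)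
      refine key h1 (Eventually.of_forall fun J => ?_)
      rw [← sh_X_pow_mul (Q J) (ρ (a + 1) J), sh_sh, add_mul, one_mul]
      congr 1
      simp only [ρ, Pi.sub_apply, Finset.sum_apply, Pi.smul_apply, smul_eq_mul, mul_sum,
        ← sum_sub_distrib]
      refine sum_congr rfl fun A _ => ?_
      have := congrArg (eval (X ^ Q J)) (sh_succ a (β A))
      rw [eval_mul, eval_X, eval_sub, eval_C] at this
      rw [← mul_assoc, this, sub_mul]
  have h1 : ¬LinearIndependent F[X] fun i : Fin (B + 1) => π (ρ (n + B - i)) := fun h => by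
    have h2 := linearIndependent_le_span_aux' _ h (Set.range (π ∘ g)) (by
      rintro _ ⟨i, rfl⟩
      exact key (v5 (n + B - i) 0) (Eventually.of_forall fun J => by simp [sh]))
    have h3 := Fintype.card_range_le (π ∘ g)
    simp only [Fintype.card_fin, Fintype.card_option, Fintype.card_prod] at h2 h3
    omega
  obtain ⟨μ, hμ, i₁, hi₁⟩ := Fintype.not_linearIndependent_iff.1 h1
  refine ⟨fun A => ∑ i : Fin (B + 1), C (μ i) * sh (n + B - i) (β A), fun e => ?_, ?_,
    fun A h e => h ?_, fun A => natDegree_sum_le_of_forall_le _ _ fun i _ =>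
      (natDegree_C_mul_le _ _).trans (natDegree_sh ?_)⟩
  · obtain ⟨i₀, hi₀, hm⟩ := exists_max_image (univ.filter fun i => μ i ≠ 0) id ⟨i₁, by simpa⟩
    have h2 := congrArg (coeff · i₀) (congrFun e A₀)
    simp only [finsetSum_coeff, coeff_C_mul, coeff_sh, Pi.zero_apply, coeff_zero] at h2
    rw [sum_eq_single i₀, show (i₀ : ℕ) + (n + B - i₀) = (β A₀).natDegree by omega] at h2
    · exact mul_ne_zero (by simpa using hi₀) (leadingCoeff_ne_zero.2 hA₀) h2
    · intro i _ hi
      by_cases h3 : μ i = 0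
      · simp [h3]
      · have h4 : i < i₀ := lt_of_le_of_ne (hm i (by simpa using h3)) hi
        rw [coeff_eq_zero_of_natDegree_lt (by have : (i : ℕ) < i₀ := h4; omega), mul_zero]
    · simp
  · simp only [← map_smul, ← map_sum] at hμ
    refine Eventually.mono ((Submodule.Quotient.mk_eq_zero _).1 hμ) fun J e => ?_
    simp only [ρ, Finset.sum_apply, Pi.smul_apply, smul_eq_mul, mul_sum] at e
    rw [← e, sum_comm]
    simp only [eval_finsetSum, eval_mul, eval_C, sum_mul, mul_assoc]
  · refine sum_eq_zero fun i _ => ?_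
    rw [e, show sh (n + B - i) (0 : F[X][X]) = 0 by ext; simp [coeff_sh], mul_zero]
  · have := hmax A
    omega

end Pool.Agent.MP_3924c3_nt
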