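import Mathlib

/-! Counting series in one variable. -/

open Finset PowerSeries

namespace Pool.Agent.MP_3924c3_nt

variable {A B : Type*}

/-- the counting series of a degree function -/
noncomputable def cn (f : A → ℕ) : PowerSeries ℤ := mk fun n => (Nat.card {x // f x = n} : ℤ)

/-- finite fibres -/
def FinFib (f : A → ℕ) : Prop := ∀ n, Finite {x // f x = n}

lemma coeff_cn (f : A → ℕ) (n : ℕ) : coeff n (cn f) = (Nat.card {x // f x = n} : ℤ) := coeff_mk _ _

lemma cn_equiv (e : A ≃ B) (f : B → ℕ) : cn (fun x => f (e x)) = cn f := by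
  ext m
  rw [coeff_cn, coeff_cn, Nat.card_congr (e.subtypeEquiv (q := fun x => f x = m) fun _ => Iff.rfl)]

lemma FinFib.comp {f : B → ℕ} (h : FinFib f) {e : A → B} (he : Function.Injective e) :
    FinFib fun x => f (e x) := fun m =>
  have := h m
  Finite.of_injective (fun x : {x // f (e x) = m} => (⟨e x, x.2⟩ : {x // f x = m}))
    fun _ _ h => Subtype.ext (he (congrArg Subtype.val h))

lemma cn_sum {f : A ⊕ B → ℕ} (h : FinFib f) :
    cn f = cn (fun a => f (.inl a)) + cn fun b => f (.inr b) := by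
  ext m
  have := h.comp Sum.inl_injective m
  have := h.comp Sum.inr_injective m
  rw [map_add, coeff_cn, coeff_cn, coeff_cn, Nat.card_congr Equiv.subtypeSum, Nat.card_sum,
    Nat.cast_add]

lemma cn_unit (d : ℕ) : cn (fun _ : Unit => d) = X ^ d := by
  ext m
  rw [coeff_cn, coeff_X_pow]
  split_ifs with h
  · subst h
    simp
  · have : IsEmpty {x : Unit // d = m} := ⟨fun x => h x.2.symm⟩
    simp

lemma cn_prod {f : A → ℕ} {g : B → ℕ} (hf : FinFib f) (hg : FinFib g) :
    cn (fun z : A × B => f z.1 + g z.2) = cn f * cn g := by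
  ext m
  let e : {z : A × B // f z.1 + g z.2 = m} ≃
      Σ p : antidiagonal m, {x // f x = p.1.1} × {y // g y = p.1.2} :=
    { toFun := fun z => ⟨⟨(f z.1.1, g z.1.2), mem_antidiagonal.2 z.2⟩, ⟨z.1.1, rfl⟩, ⟨z.1.2, rfl⟩⟩
      invFun := fun x => ⟨(x.2.1, x.2.2), by rw [x.2.1.2, x.2.2.2, mem_antidiagonal.1 x.1.2]⟩
      left_inv := fun _ => rfl
      right_inv := by
        rintro ⟨⟨⟨a, b⟩, _⟩, ⟨x, hx⟩, ⟨y, hy⟩⟩
        dsimp only at hx hy
        subst hx hy
        rfl }
  have := hf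
  have := hg
  unfold FinFib at *
  rw [coeff_mul, coeff_cn, Nat.card_congr e, Nat.card_sigma, ← sum_coe_sort (antidiagonal m)]
  simp only [coeff_cn, Nat.card_prod, Nat.cast_sum, Nat.cast_mul]

lemma cn_list {f : A → ℕ} (hf : FinFib f) (h : FinFib fun L : List A => (L.map f).sum) :
    cn (fun L : List A => (L.map f).sum) * (1 - cn f) = 1 := by
  let e : Unit ⊕ A × List A ≃ List A :=
    { toFun := Sum.elim (fun _ => []) fun z => z.1 :: z.2
      invFun := fun L => List.casesOn L (.inl ()) fun a L => .inr (a, L)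
      left_inv := by rintro (_ | _) <;> rfl
      right_inv := by rintro (_ | _) <;> rfl }
  have h1 := cn_sum (h.comp e.injective)
  rw [cn_equiv e fun L : List A => (L.map f).sum] at h1
  have h2 := cn_prod hf h
  have h3 := cn_unit 0
  rw [pow_zero] at h3
  have h4 : cn (fun L : List A => (L.map f).sum) =
      1 + cn f * cn fun L : List A => (L.map f).sum := by
    rw [← h2, ← h3]
    exact h1
  linear_combination h4

lemma geo {p : ℕ} (hp : 1 ≤ p) :
    (mk fun s => if p ∣ s then (1 : ℤ) else 0) * (1 - X ^ p) = 1 := by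
  ext n
  rw [mul_sub, mul_one, map_sub, coeff_mul_X_pow', coeff_mk, coeff_mk, coeff_one]
  by_cases h : p ≤ n
  · simp [h, Nat.dvd_sub_iff_left h, show n ≠ 0 by omega]
  · by_cases h0 : n = 0
    · simp [h0, show p ≠ 0 by omega]
    · simp [h, h0, mt (Nat.le_of_dvd (by omega)) h]

lemma cn_mul {p : ℕ} (hp : 1 ≤ p) : cn (fun j => p * j) * (1 - X ^ p) = 1 := by
  convert geo hp using 2
  ext n
  rw [coeff_cn, coeff_mk]
  split_ifs with h
  · obtain ⟨j, rfl⟩ := h
    exact_mod_cast Nat.card_eq_one_iff_exists.2 ⟨⟨j, rfl⟩, fun y : {x // p * x = p * j} =>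
      Subtype.ext (Nat.eq_of_mul_eq_mul_left hp y.2)⟩
  · have : IsEmpty {j // p * j = n} := ⟨fun x => h ⟨x, x.2.symm⟩⟩
    simp

lemma finFib_of_le {f : A → ℕ} (h : ∀ w, {x | f x ≤ w}.Finite) : FinFib f := fun m =>
  (h m).subset (s := {x | f x ≤ m}) (t := {x | f x = m}) fun _ hx => le_of_eq hx

lemma finFib_mul {p : ℕ} (hp : 1 ≤ p) : FinFib fun j => p * j := finFib_of_le fun w =>
  (Set.finite_Iic w).subset fun j (hj : p * j ≤ w) => (Nat.le_mul_of_pos_left j hp).trans hj

lemma ceil_series {q : ℕ} (hq : 1 ≤ q) :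
    (mk fun s => (((s + q - 1) / q : ℕ) : ℤ)) * (1 - X ^ q) * (1 - X) = X := by
  have h : (PowerSeries.mk fun s => (((s + q - 1) / q : ℕ) : ℤ)) * (1 - X ^ q) =
      X * PowerSeries.mk 1 := by
    ext n
    rw [mul_sub, mul_one, map_sub, coeff_mul_X_pow', coeff_mk, coeff_mk]
    rcases n with _ | n
    · simp [show q ≠ 0 by omega, Nat.div_eq_of_lt (show q - 1 < q by omega)]
    rw [coeff_succ_X_mul, coeff_mk, show n + 1 + q - 1 = n + q by omega, Nat.add_div_right _ hq]
    split_ifs with h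
    · rw [show n + 1 - q + q - 1 = n by omega]
      simp
    · simp [Nat.div_eq_of_lt (show n < q by omega)]
  rw [h, mul_assoc, mk_one_mul_one_sub_eq_one, mul_one]

lemma sum_Icc_mul (q : ℕ) :
    (∑ i ∈ Icc 1 q, (X : PowerSeries ℤ) ^ i) * (1 - X) = X - X ^ (q + 1) := by
  induction q with
  | zero => simp
  | succ q ih => rw [sum_Icc_succ_top (by omega), add_mul, ih]; ring

lemma one_sub_X_ne : (1 - X : PowerSeries ℤ) ≠ 0 := fun h => by
  simpa using congrArg constantCoeff h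

lemma series_eq {q : ℕ} (hq : 2 ≤ q) {D G : PowerSeries ℤ} (hD : D * (1 - X ^ q) * (1 - G) = 1)
    (hG : ∀ s, coeff s G + (if 1 ≤ s ∧ (q - 1) ∣ s then 1 else 0) = ((s + q - 1) / q : ℕ)) :
    D * (1 - ∑ i ∈ Icc 1 q, X ^ i) = 1 - X ^ (q - 1) := by
  have h1 := geo (p := q - 1) (by omega)
  have h2 := ceil_series (q := q) (by omega)
  have h3 : G = (mk fun s => (((s + q - 1) / q : ℕ) : ℤ)) + 1 -
      mk fun s => if q - 1 ∣ s then (1 : ℤ) else 0 := by
    ext s
    simp only [map_sub, map_add, coeff_mk, ← hG s, coeff_one]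
    rcases s with _ | s <;> simp
  have h4 := sum_Icc_mul q
  obtain ⟨p, rfl⟩ : ∃ p, q = p + 1 := ⟨q - 1, by omega⟩
  rw [Nat.add_sub_cancel] at *
  refine mul_right_cancel₀ one_sub_X_ne ?_
  rw [h3] at hD
  linear_combination (1 - X ^ p) * (1 - X) * hD - D * h4 -
    D * (1 - X ^ (p + 1)) * (1 - X) * h1 + D * (1 - X ^ p) * h2

end Pool.Agent.MP_3924c3_nt
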