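import Mathlib

/- Finite multiple zeta values over `F[θ]` (Chang and Mishiba). -/

open Polynomial nonZeroDivisors

namespace Pool.Agent.MP_3924c3_nt

variable (F : Type*) [Field F]

/-- The primes of `A = F[θ]`: the monic irreducible polynomials. -/
abbrev Pr : Type _ := {P : F[X] // P.Monic ∧ Irreducible P}

instance (P : Pr F) : Fact (Irreducible P.1) := ⟨P.2.2⟩

/-- The ideal of the families in `∏_P A/P` that vanish at all but finitely many primes. -/
def small : Ideal (∀ P : Pr F, AdjoinRoot P.1) where
  carrier := {x | {P | x P ≠ 0}.Finite}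
  add_mem' := fun {x y} hx hy => (Set.Finite.union hx hy).subset fun P hP => by
    by_contra h
    simp only [Set.mem_union, Set.mem_ofPred_eq, not_or, not_not] at h
    exact hP (by simp [h.1, h.2])
  zero_mem' := by simp
  smul_mem' := fun c x hx => Set.Finite.subset hx fun P hP e => hP (by simp [e])

/-- The ring `𝒜 = (∏_P A/P) / (⊕_P A/P)`. -/
abbrev FA : Type _ := (∀ P : Pr F, AdjoinRoot P.1) ⧸ small F

/-- The class in `𝒜` of a family in `∏_P A/P`. -/
noncomputable def cls : (∀ P : Pr F, AdjoinRoot P.1) →+* FA F := Ideal.Quotient.mk (small F)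

/-- The diagonal map from `A` to `𝒜`. -/
noncomputable def diag : F[X] →+* FA F :=
  (cls F).comp (RingHom.pi fun P : Pr F => AdjoinRoot.mk P.1)

lemma finite_dvd {a : F[X]} (ha : a ≠ 0) : {P : Pr F | AdjoinRoot.mk P.1 a = 0}.Finite := by
  classical
  refine Set.Finite.of_finite_image (f := Subtype.val)
    ((UniqueFactorizationMonoid.normalizedFactors a).finite_toSet.subset ?_) Subtype.val_injective.injOn
  rintro _ ⟨P, hP, rfl⟩
  exact (Polynomial.mem_normalizedFactors_iff ha).2 ⟨P.2.2, P.2.1, AdjoinRoot.mk_eq_zero.1 hP⟩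

lemma isUnit_diag (a : F[X]⁰) : IsUnit (diag F a) :=
  IsUnit.of_mul_eq_one (cls F fun P => (AdjoinRoot.mk P.1 a)⁻¹)
    (Ideal.Quotient.eq.2 ((finite_dvd F (nonZeroDivisors.coe_ne_zero a)).subset fun _ hP =>
      by_contra fun h => hP (sub_eq_zero.2 (mul_inv_cancel₀ h))))

/-- `𝒜` is an algebra over `K = F(θ)`, since nonzero elements of `A` are invertible in `𝒜`. -/
noncomputable instance : Algebra (RatFunc F) (FA F) :=
  (IsLocalization.lift (S := RatFunc F) (isUnit_diag F)).toAlgebra

/-- The finite multiple zeta value: at the prime `P`, the sum of `∏ 1 / a_i ^ s_i` modulo `P` over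
monic `a_1, …, a_r` in `A` with `deg P > deg a_1 > ⋯ > deg a_r`. -/
noncomputable def fmzv (s : List ℕ) : FA F :=
  cls F fun P =>
    ∑ᶠ a ∈ {a : Fin s.length → F[X] | (∀ i, (a i).Monic ∧ (a i).natDegree < P.1.natDegree) ∧
      StrictAnti fun i => (a i).natDegree}, ∏ i, (AdjoinRoot.mk P.1 (a i))⁻¹ ^ s.get i

/-- The `K`-span of the finite multiple zeta values of weight `w`. -/
noncomputable def ZA (w : ℕ) : Submodule (RatFunc F) (FA F) :=
  Submodule.span (RatFunc F) (Set.range fun c : Composition w => fmzv F c.blocks)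

/-- The dimension over `K` of the span of the finite multiple zeta values of weight `w`. -/
noncomputable def dimZ (w : ℕ) : ℕ := Module.finrank (RatFunc F) (ZA F w)

/-- The `K`-span of the finite multiple zeta values indexed by the words in `S`. -/
noncomputable def spanZ (S : Set (List ℕ)) : Submodule (RatFunc F) (FA F) :=
  Submodule.span (RatFunc F) (fmzv F '' S)

/-- The words with all entries in `[1, q]`, first and last entry different from `q`, other than the
word `(q - 1)`. -/
def BS (q : ℕ) : Set (List ℕ) :=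
  {s | (∀ a ∈ s, 1 ≤ a ∧ a ≤ q) ∧ s.head? ≠ some q ∧ s.getLast? ≠ some q ∧ s ≠ [q - 1]}

end Pool.Agent.MP_3924c3_nt
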