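import Pool.Agent.MP_3924c3_nt.Reduce

/-! Reduction to words of Thakur type. -/

open Finset Polynomial

namespace Pool.Agent.MP_3924c3_nt

open Pool.Agent.MP_cbe134_nt.FF

variable {F k : Type*} [Field F] [Fintype F] [Field k] [Algebra F k] {t : k}

variable (F t) in
/-- the sequence `1 / ℓ_d` -/
noncomputable def xs : ℕ → k := letK F t 1 1

variable (F t) in
/-- truncated multiple polylogarithms at one -/
noncomputable def Li (s : List ℕ) : ℕ → k := Wlt (fun a => xs F t ^ a) s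

omit [Field F] [Algebra F k] in
lemma Li_cons (a : ℕ) (s : List ℕ) : Li F t (a :: s) = psum k (xs F t ^ a * Li F t s) := rfl

omit [Field F] [Algebra F k] in
lemma xs_pow (a : ℕ) : xs F t ^ a = letK F t a 1 := by rw [xs, lett_pow, mul_one, one_pow]

lemma letK_Z (ht : Tr F t) :
    letK F t (qq F - 1) (C (t ^ qq F) - X) = (t - t ^ qq F) • Li F t [qq F - 1] := by
  have hq := two_le_q (F := F)
  have h1 : Rel (qq F) t (qq F - 1) (C (t ^ qq F) - X) ((t - t ^ qq F) • 1) := by
    rw [MP_cbe134_nt.FF.Rel, expand_Z, smul_eq_C_mul, mul_one, C_sub,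
      show C (t ^ qq F) - X + (C t - C (t ^ qq F)) = C t - X by ring, ← pow_succ]
    congr 1
    omega
  rw [(ht.rel_iff (by omega)).1 h1, map_smul, map_smul, Li_cons, xs_pow]
  exact congrArg _ (congrArg _ (mul_one _).symm)

lemma psum_shift (ht : Tr F t) (f : ℕ → k) :
    psum k (xs F t ^ qq F * fun d => f (d + 1)) = (t - t ^ qq F) •
      (psum k (xs F t * (Li F t [qq F - 1] * f)) + xs F t * (Li F t [qq F - 1] * f)) := by
  have hq := two_le_q (F := F)
  have h : vp F t = (t - t ^ qq F) • (xs F t * Li F t [qq F - 1]) := by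
    rw [← mul_smul_comm, ← letK_Z ht, xs, lett_mul, one_mul, vp, Nat.add_sub_cancel' (by omega)]
  refine (eq_psum (by simp [psum_zero, Li_cons]) fun d => ?_).symm
  have h1 := congrFun h (d + 1)
  rw [vp_succ ht] at h1
  have h2 : (xs F t ^ qq F) d = (LL F t d)⁻¹ ^ qq F := by simp [xs, lett_apply, LL]
  simp only [Pi.smul_apply, Pi.add_apply, Pi.mul_apply, psum_succ, h2, h1, smul_eq_mul]
  ring

/-- words of Thakur type -/
def Th (q : ℕ) (s : List ℕ) : Prop := (∀ a ∈ s, 1 ≤ a ∧ a ≤ q) ∧ s.getLast? ≠ some q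

lemma Th.cons {q a : ℕ} {s : List ℕ} (h : Th q s) (h1 : 1 ≤ a) (h2 : a ≤ q)
    (h3 : a = q → s ≠ []) : Th q (a :: s) := by
  refine ⟨by simpa [h1, h2] using h.1, ?_⟩
  cases s with
  | nil => simpa using fun e => h3 e rfl
  | cons b s => simpa only [List.getLast?_cons_cons] using h.2

variable (F t) (R : Type*) [CommRing R] [Algebra R k]

/-- the span of all words -/
noncomputable def Lw (w : ℕ) : Submodule R (ℕ → k) :=
  Submodule.span R {x | ∃ s : List ℕ, (∀ a ∈ s, 1 ≤ a) ∧ s.sum = w ∧ x = Li F t s}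

/-- the span of the words of Thakur type -/
noncomputable def Tw (w : ℕ) : Submodule R (ℕ → k) :=
  Submodule.span R {x | ∃ s : List ℕ, Th (qq F) s ∧ s.sum = w ∧ x = Li F t s}

/-- the span of the boundary terms -/
noncomputable def Xw (w : ℕ) : Submodule R (ℕ → k) := Submodule.span R
  {x | ∃ (b : ℕ) (s : List ℕ), 1 ≤ b ∧ Th (qq F) s ∧ b + s.sum = w ∧ x = xs F t ^ b * Li F t s}

/-- adding a first letter -/
noncomputable def cs (a : ℕ) : (ℕ → k) →ₗ[R] ℕ → k :=
  (psum k).restrictScalars R ∘ₗ LinearMap.mulLeft R (xs F t ^ a)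

variable {F t R} {a w w' : ℕ} {f g : ℕ → k}

omit [Field F] [Algebra F k] in
lemma fg_Lw : (Lw F t R w).FG := Submodule.fg_span
  ((Set.finite_range fun c : Composition w => Li F t c.blocks).subset (by
    rintro _ ⟨s, h1, h2, rfl⟩
    exact ⟨⟨s, fun {a} ha => h1 a ha, h2⟩, rfl⟩))

omit [Field F] [Algebra F k] in
lemma Li_mem {s : List ℕ} (h : ∀ a ∈ s, 1 ≤ a) : Li F t s ∈ Lw F t R s.sum :=
  Submodule.subset_span ⟨s, h, rfl, rfl⟩

omit [Field F] [Algebra F k] in
lemma cs_mem (ha : 1 ≤ a) (hf : f ∈ Lw F t R w) : psum k (xs F t ^ a * f) ∈ Lw F t R (a + w) := by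
  refine (Submodule.span_le (p := (Lw F t R (a + w)).comap (cs F t R a))).2 ?_ hf
  rintro _ ⟨s, h1, rfl, rfl⟩
  exact Li_mem (s := a :: s) (by simpa [ha] using h1)

omit [Field F] [Algebra F k] in
lemma stuffle (s s' : List ℕ) (h : ∀ a ∈ s, 1 ≤ a) (h' : ∀ a ∈ s', 1 ≤ a) :
    Li F t s * Li F t s' ∈ Lw F t R (s.sum + s'.sum) := by
  induction s generalizing s' with
  | nil => simpa [Li, Wlt_nil] using Li_mem h'
  | cons a s ih =>
    induction s' with
    | nil => simpa [Li, Wlt_nil] using Li_mem h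
    | cons b s' ih' =>
      have ha := h a (by simp)
      have hb := h' b (by simp)
      have h1 : ∀ c ∈ s, 1 ≤ c := fun c hc => h c (by simp [hc])
      have h2 : ∀ c ∈ s', 1 ≤ c := fun c hc => h' c (by simp [hc])
      have e1 := cs_mem ha (ih _ h1 h')
      have e2 := cs_mem hb (ih' h2)
      have e3 := cs_mem (a := a + b) (by omega) (ih _ h1 h2)
      rw [Li_cons, Li_cons, psum_mul_psum, add_mul, map_add, ← Li_cons a, ← Li_cons b]
      simp only [List.sum_cons] at e1 e2 e3 ⊢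
      refine add_mem ?_ (add_mem ?_ ?_)
      · rwa [mul_assoc, add_assoc]
      · rwa [mul_left_comm, add_left_comm]
      · rwa [mul_mul_mul_comm, ← pow_add, add_add_add_comm]

omit [Field F] [Algebra F k] in
lemma mul_mem_Lw (hf : f ∈ Lw F t R w) (hg : g ∈ Lw F t R w') : f * g ∈ Lw F t R (w + w') := by
  have : Lw F t R w * Lw F t R w' ≤ Lw F t R (w + w') := by
    rw [Lw, Lw, Submodule.span_mul_span, Submodule.span_le]
    rintro _ ⟨_, ⟨s, h1, rfl, rfl⟩, _, ⟨s', h2, rfl, rfl⟩, rfl⟩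
    exact stuffle s s' h1 h2
  exact this (Submodule.mul_mem_mul hf hg)

variable {I : Ideal R}

omit [Field F] [Algebra F k] in
lemma map_mem_of (φ : (ℕ → k) →ₗ[R] ℕ → k) {M N : Submodule R (ℕ → k)}
    (h1 : ∀ s, Th (qq F) s → s.sum = w → φ (Li F t s) ∈ M)
    (h2 : ∀ b s, 1 ≤ b → Th (qq F) s → b + s.sum = w → φ (xs F t ^ b * Li F t s) ∈ N)
    (hf : f ∈ Tw F t R w ⊔ I • Xw F t R w) : φ f ∈ M ⊔ I • N := by
  have h := Submodule.mem_map_of_mem (f := φ) hf
  rw [Submodule.map_sup, Submodule.map_smul''] at h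
  refine SetLike.le_def.1 (sup_le_sup ?_ (Submodule.smul_mono le_rfl ?_)) h <;>
    refine Submodule.map_le_iff_le_comap.2 (Submodule.span_le.2 ?_)
  · rintro _ ⟨s, h3, h4, rfl⟩
    exact h1 s h3 h4
  · rintro _ ⟨b, s, h3, h4, h5, rfl⟩
    exact h2 b s h3 h4 h5

omit [Field F] [Algebra F k] in
lemma mul_mem_Xw (ha : 1 ≤ a) (hf : f ∈ Tw F t R w ⊔ I • Xw F t R w) :
    xs F t ^ a * f ∈ Xw F t R (a + w) :=
  SetLike.le_def.1 (sup_le le_rfl Submodule.smul_le_right) (map_mem_of (LinearMap.mulLeft R (xs F t ^ a))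
    (fun s h1 h2 => Submodule.subset_span ⟨a, s, ha, h1, by rw [h2], rfl⟩)
    (fun b s h1 h2 h3 => Submodule.subset_span ⟨a + b, s, by omega, h2, by omega, by
      rw [LinearMap.mulLeft_apply, pow_add, mul_assoc]⟩) hf)

omit [Field F] [Algebra F k] in
lemma cs_mem_of {M : Submodule R (ℕ → k)} {n : ℕ} (ha : 1 ≤ a) (hn : a + w = n)
    (h : ∀ s, Th (qq F) s → s.sum = w → Li F t (a :: s) ∈ M ⊔ I • Lw F t R n)
    (hf : f ∈ Tw F t R w ⊔ I • Xw F t R w) :
    psum k (xs F t ^ a * f) ∈ M ⊔ I • Lw F t R n :=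
  SetLike.le_def.1 (sup_le le_rfl le_sup_right) (map_mem_of (cs F t R a) h (fun b s h1 h2 h3 => by
    have := cs_mem (R := R) (F := F) (t := t) (a := a + b) (by omega)
      (Li_mem fun c hc => (h2.1 c hc).1)
    rwa [add_assoc, h3, hn, pow_add, mul_assoc] at this) hf)

variable {p : R}

theorem Lw_le (ht : Tr F t) (hp : algebraMap R k p = t - t ^ qq F) (hI : p ∈ I)
    (hJ : I ≤ Ideal.jacobson ⊥) (w : ℕ) : Lw F t R w ≤ Tw F t R w ⊔ I • Xw F t R w := by
  have hq := two_le_q (F := F)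
  induction w using Nat.strong_induction_on with
  | _ w ih =>
  refine Submodule.le_of_le_smul_of_le_jacobson_bot fg_Lw hJ (Submodule.span_le.2 ?_)
  have h1 : ∀ a s, 1 ≤ a → a ≤ qq F → (a = qq F → s ≠ []) → Th (qq F) s → a + s.sum = w →
      Li F t (a :: s) ∈ (Tw F t R w ⊔ I • Xw F t R w) ⊔ I • Lw F t R w :=
    fun a s h1 h2 h3 h4 h5 => Submodule.mem_sup_left (Submodule.mem_sup_left
      (Submodule.subset_span ⟨a :: s, h4.cons h1 h2 h3, h5, rfl⟩))
  have h2 : ∀ v f, f ∈ Lw F t R v → qq F + v = w → psum k (xs F t ^ qq F * fun d => f (d + 1)) ∈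
      (Tw F t R w ⊔ I • Xw F t R w) ⊔ I • Lw F t R w := fun v f hf hv => by
    have h3 := mul_mem_Lw (Li_mem (s := [qq F - 1]) (by simp; omega)) hf
    rw [List.sum_singleton] at h3
    have h4 := cs_mem le_rfl h3
    have h5 := mul_mem_Xw le_rfl (ih _ (by omega) h3)
    rw [pow_one, show 1 + (qq F - 1 + v) = w by omega] at h4 h5
    rw [psum_shift ht, ← hp, algebraMap_smul, smul_add]
    exact add_mem (Submodule.mem_sup_right (Submodule.smul_mem_smul hI h4))
      (Submodule.mem_sup_left (Submodule.mem_sup_right (Submodule.smul_mem_smul hI h5)))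
  rintro _ ⟨s, hs, hw, rfl⟩
  rcases s with _ | ⟨a, s⟩
  · exact Submodule.mem_sup_left (Submodule.mem_sup_left
      (Submodule.subset_span ⟨[], ⟨by simp, by simp⟩, hw, rfl⟩))
  have ha := hs a (by simp)
  rw [List.sum_cons] at hw
  refine cs_mem_of ha hw (fun s' h3 h4 => ?_)
    (ih _ (by omega) (Li_mem fun b hb => hs b (by simp [hb])))
  rw [← h4] at hw
  by_cases h5 : a ≤ qq F ∧ (a = qq F → s' ≠ [])
  · exact h1 a s' ha h5.1 h5.2 h3 hw
  rcases (show a = qq F ∨ qq F < a by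
    by_contra h
    exact h5 ⟨by omega, by omega⟩) with rfl | h6
  · obtain rfl : s' = [] := by simpa using h5
    exact h2 0 1 (Li_mem (s := []) (by simp)) hw
  obtain ⟨u, rfl⟩ := Nat.exists_eq_add_of_lt h6
  have h7 := Li_mem (F := F) (t := t) (R := R) (s := (u + 1) :: s')
    (by simpa using fun b hb => (h3.1 b hb).1)
  rw [List.sum_cons] at h7
  have h9 := sub_mem (h2 _ _ h7 (by omega)) (cs_mem_of (a := qq F) (by omega) (by omega)
    (fun s'' h8 h9 => h1 (qq F) s'' (by omega) le_rfl (by rintro - rfl; simp at h9; omega) h8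
      (by omega)) (ih _ (by omega) h7))
  rw [← map_sub, ← mul_sub] at h9
  convert h9 using 1
  rw [Li_cons, add_assoc, pow_add, mul_assoc]
  congr 2
  ext d
  simp [Li_cons, psum_succ]

variable (F t R) in
/-- the span of the basis words -/
noncomputable def Bw (w : ℕ) : Submodule R (ℕ → k) := Submodule.span R
  {x | ∃ s : List ℕ, (Th (qq F) s ∧ s.head? ≠ some (qq F) ∧ s ≠ [qq F - 1]) ∧ s.sum = w ∧
    x = Li F t s}

theorem Lw_le_Bw (ht : Tr F t) (hp : algebraMap R k p = t - t ^ qq F) (hI : p ∈ I)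
    (hJ : I ≤ Ideal.jacobson ⊥) {N : Submodule R (ℕ → k)}
    (hN : ∀ v, ∀ f ∈ Lw F t R v, Li F t [qq F - 1] * f ∈ N) (w : ℕ) :
    Lw F t R w ≤ Bw F t R w ⊔ N := by
  have hq := two_le_q (F := F)
  have hL := Lw_le ht hp hI hJ
  refine Submodule.le_of_le_smul_of_le_jacobson_bot fg_Lw hJ (Submodule.span_le.2 ?_)
  have key : ∀ a, 1 ≤ a → ∀ v f, a + v = w → f ∈ Lw F t R v →
      psum k (xs F t ^ a * f) ∈ (Bw F t R w ⊔ N) ⊔ I • Lw F t R w := fun a => by
    induction a using Nat.strong_induction_on with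
    | _ a ih =>
    refine fun ha v f hv hf => cs_mem_of ha hv (fun s h1 h2 => ?_) (hL _ hf)
    have h3 := Li_mem (F := F) (t := t) (R := R) fun b hb => (h1.1 b hb).1
    by_cases h4 : a < qq F
    · by_cases h5 : a :: s = [qq F - 1]
      · exact Submodule.mem_sup_left (Submodule.mem_sup_right (by
          simpa [h5, Li, Wlt_nil] using hN 0 _ (Li_mem (s := []) (by simp))))
      · exact Submodule.mem_sup_left (Submodule.mem_sup_left (Submodule.subset_span
          ⟨a :: s, ⟨h1.cons ha h4.le (by omega), by simp; omega, h5⟩, by simp; omega, rfl⟩))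
    obtain ⟨u, rfl⟩ : ∃ u, a = qq F - 1 + (u + 1) := ⟨a - qq F, by omega⟩
    have h5 := cs_mem (a := u + 1) (by omega) h3
    have h6 := sub_mem (sub_mem (Submodule.mem_sup_left (T := I • Lw F t R w)
      (Submodule.mem_sup_right (S := Bw F t R w) (hN _ _ h5)))
      (ih (qq F - 1) (by omega) (by omega) _ _ (by omega) h5))
      (ih (u + 1) (by omega) (by omega) _ _ (by simp; omega)
        (mul_mem_Lw (Li_mem (s := [qq F - 1]) (by simp; omega)) h3))
    convert h6 using 1
    have h7 := psum_mul_psum (xs F t ^ (qq F - 1) * Li F t []) (xs F t ^ (u + 1) * Li F t s)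
    rw [← Li_cons, add_mul, map_add, mul_left_comm (Li F t _)] at h7
    rw [h7, Li_cons, pow_add, Li, Li, Wlt_nil, mul_one, mul_assoc]
    ring
  rintro _ ⟨s, hs, hw, rfl⟩
  rcases s with _ | ⟨a, s⟩
  · exact Submodule.mem_sup_left (Submodule.mem_sup_left
      (Submodule.subset_span ⟨[], ⟨⟨by simp, by simp⟩, by simp, by simp⟩, hw, rfl⟩))
  exact key a (hs a (by simp)) _ _ hw (Li_mem fun b hb => hs b (by simp [hb]))

lemma SS_small (ht : Tr F t) {a : ℕ} (h1 : 1 ≤ a) (h2 : a ≤ qq F) : SS F t a = xs F t ^ a := by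
  induction a, h1 using Nat.le_induction with
  | base => rw [pow_one, xs, ht.SS_one]
  | succ a ha ih =>
    ext d
    rw [ht.SS_rec, if_neg (by omega), zero_add, sum_eq_single 0, pow_zero, if_pos ha,
      Nat.sub_add_cancel ha, ih (by omega), pow_succ', Pi.mul_apply]
    · simp [xs, cc, DD]
    · intro i _ hi
      have := Nat.pow_le_pow_right (show 0 < qq F by omega) (Nat.one_le_iff_ne_zero.2 hi)
      rw [if_neg (by rw [pow_one] at this; omega)]
    · simp

lemma Li_eq (ht : Tr F t) {s : List ℕ} (h : ∀ a ∈ s, 1 ≤ a ∧ a ≤ qq F) :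
    Li F t s = Wlt (SS F t) s := by
  induction s with
  | nil => rfl
  | cons a s ih =>
    rw [Li_cons, Wlt_cons, ih fun b hb => h b (by simp [hb]),
      SS_small ht (h a (by simp)).1 (h a (by simp)).2]

lemma Li_mem_Slt (ht : Tr F t) {s : List ℕ} (h : ∀ a ∈ s, 1 ≤ a) :
    Li F t s ∈ Slt F t s.sum s.sum := by
  have h1 : ∀ a, 1 ≤ a → xs F t ^ a ∈ Seq F t a a := fun a ha => by
    induction a, ha using Nat.le_induction with
    | base => rw [pow_one, xs, ← ht.SS_one]; exact SS_mem le_rfl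
    | succ a ha ih => rw [pow_succ, xs, ← ht.SS_one]; exact ht.mul_eq (ht.SS_one ▸ ih) (SS_mem le_rfl)
  induction s with
  | nil => exact one_mem_Slt
  | cons a s ih =>
    exact psum_mem (ht.mul_eq_lt (h1 a (h a (by simp))) (ih fun b hb => h b (by simp [hb])))

lemma Wlt_mem_Lw (ht : Tr F t) {s : List ℕ} (h : ∀ a ∈ s, 1 ≤ a) :
    Wlt (SS F t) s ∈ Lw F t k s.sum := by
  have hq := two_le_q (F := F)
  have h1 : ∀ j, letK F t (j * (qq F - 1)) ((C (t ^ qq F) - X) ^ j) ∈ Lw F t k (j * (qq F - 1)) :=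
    fun j => by
      induction j with
      | zero => simpa [lett_one, Li, Wlt_nil] using Li_mem (F := F) (t := t) (R := k) (s := []) (by simp)
      | succ j ih =>
        rw [pow_succ, add_mul, one_mul, ← lett_mul, letK_Z ht]
        exact mul_mem_Lw ih (Submodule.smul_mem _ _ (by
          simpa using Li_mem (F := F) (t := t) (R := k) (s := [qq F - 1]) (by simp; omega)))
  induction s with
  | nil => exact Li_mem h
  | cons a s ih =>
    have ha := h a (by simp)
    obtain ⟨H, h5, h6, -⟩ := ht.exists_H' ha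
    rw [Wlt_cons, h6]
    refine degreeLT_le_of_triangular (c := t ^ qq F) (W := (Lw F t k (a :: s).sum).comap
      (psum k ∘ₗ LinearMap.mulRight k (Wlt (SS F t) s) ∘ₗ letK F t a)) (fun j hj => ?_) h5.1
    have h2 : j * (qq F - 1) < a := by
      have := (Nat.le_div_iff_mul_le (show 0 < qq F - 1 by omega)).1 (Nat.lt_succ_iff.1 hj)
      omega
    refine ⟨1, by simp, ?_, ?_⟩
    · have h3 := cs_mem (a := a - j * (qq F - 1)) (by omega)
        (mul_mem_Lw (h1 j) (ih fun b hb => h b (by simp [hb])))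
      rwa [← mul_assoc, xs_pow, lett_mul, ← add_assoc, Nat.sub_add_cancel h2.le] at h3
    · rw [one_mul, SetLike.mem_coe, mem_degreeLT, ← natDegree_lt_iff_degree_lt
        (pow_ne_zero _ (Y_ne _)), natDegree_pow, natDegree_Y, mul_one]
      exact hj

end Pool.Agent.MP_3924c3_nt
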