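import Pool.Agent.MP_cbe134_nt.FFExact

/-! Sequences of rational functions of bounded height satisfying a Frobenius recursion. -/

open Finset Polynomial

namespace Pool.Agent.MP_3924c3_nt

open Pool.Agent.MP_cbe134_nt.FF

variable {F k : Type*} [Field F] [Fintype F] [Field k] [Algebra F k] {t : k}

/-- the product of the `t - X ^ q ^ i` for `i < n` -/
noncomputable def PP (q : ℕ) (t : k) (n : ℕ) : k[X] := ∏ i ∈ range n, (C t - X ^ q ^ i)

lemma PP_succ (q n : ℕ) : PP q t (n + 1) = (C t - X) * expand k q (PP q t n) := by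
  rw [PP, prod_range_succ', mul_comm, pow_zero, pow_one, PP, map_prod]
  congr 1
  exact prod_congr rfl fun i _ => by simp [← pow_mul, pow_succ']

lemma PP_ne {q : ℕ} (hq : 2 ≤ q) (n : ℕ) : PP q t n ≠ 0 := by
  induction n with
  | zero => simp [PP]
  | succ n ih => rw [PP_succ]; exact mul_ne_zero (Y_ne t) ((expand_ne_zero (by omega)).2 ih)

lemma iter_rel {q a b : ℕ} (hq : 2 ≤ q) {f g : ℕ → k[X]} (hf : ∀ n, f n ≠ 0)
    (h : ∀ n, f (n + 1) * expand k q (g n) * (C t - X) ^ a =
      g (n + 1) * expand k q (f n) * (C t - X) ^ b) (n : ℕ) :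
    f n * expand k (q ^ n) (g 0) * PP q t n ^ a = g n * expand k (q ^ n) (f 0) * PP q t n ^ b := by
  induction n with
  | zero => simp [PP, mul_comm]
  | succ n ih =>
    have h1 := congrArg (expand k q) ih
    simp only [map_mul, map_pow, expand_expand, ← pow_succ'] at h1
    refine mul_left_cancel₀ ((expand_ne_zero (p := q) (by omega)).2 (hf n)) ?_
    rw [PP_succ, mul_pow, mul_pow]
    linear_combination f (n + 1) * (C t - X) ^ a * h1 +
      expand k (q ^ (n + 1)) (f 0) * expand k q (PP q t n) ^ b * h n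

lemma root_bound (ht : Tr F t) {n e : ℕ} {u v w : k[X]} (he : e ≠ 0) (hv : v ≠ 0) (hw : w ≠ 0)
    (h : u * PP (qq F) t n ^ e = v * expand k (qq F ^ n) w) : n ≤ v.natDegree + w.natDegree := by
  classical
  let φ : k →+* k := (frp F k n).toRingHom
  have h0 : v.map φ * w ≠ 0 := mul_ne_zero (by simpa using hv) hw
  have h1 : (range n).image (fun j => t ^ qq F ^ (j + 1)) ⊆ (v.map φ * w).roots.toFinset := by
    intro x hx
    obtain ⟨j, hj, rfl⟩ := mem_image.1 hx
    rw [mem_range] at hj
    rw [Multiset.mem_toFinset, mem_roots h0, IsRoot.def, eval_mul, eval_map]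
    have h2 := congrArg (eval₂ φ (t ^ qq F ^ (j + 1))) h
    have h3 : eval₂ φ (t ^ qq F ^ (j + 1)) (PP (qq F) t n) = 0 := by
      rw [PP, eval₂_finsetProd]
      refine prod_eq_zero (i := n - (j + 1)) (mem_range.2 (by omega)) ?_
      rw [eval₂_sub, eval₂_C, eval₂_X_pow, ← pow_mul, ← pow_add,
        show j + 1 + (n - (j + 1)) = n by omega]
      exact sub_eq_zero.2 (frp_apply n t)
    have h4 : eval₂ φ (t ^ qq F ^ (j + 1)) (expand k (qq F ^ n) w) =
        φ (w.eval (t ^ qq F ^ (j + 1))) := by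
      rw [← eval_map, map_expand, expand_eval, eval_map, ← eval₂_hom]
      congr 1
      exact (frp_apply n _).symm
    rw [eval₂_mul, eval₂_mul, eval₂_pow, h3, zero_pow he, mul_zero, h4, eq_comm, mul_eq_zero,
      map_eq_zero] at h2
    exact mul_eq_zero.2 h2
  have h2 := card_le_card h1
  rw [card_image_of_injective _ (fun i j e => by
    by_contra hij
    exact ht.tq_ne (i := i + 1) (j := j + 1) (by omega) e), card_range] at h2
  refine h2.trans ((Multiset.toFinset_card_le _).trans ((card_roots' _).trans ?_))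
  exact natDegree_mul_le.trans (Nat.add_le_add_right natDegree_map_le _)

lemma height (ht : Tr F t) {a b B : ℕ} {f g : ℕ → k[X]} (hf : ∀ n, f n ≠ 0) (hg : g 0 ≠ 0)
    (df : ∀ n, (f n).natDegree ≤ B) (dg : ∀ n, (g n).natDegree ≤ B)
    (h : ∀ n, f (n + 1) * expand k (qq F) (g n) * (C t - X) ^ a =
      g (n + 1) * expand k (qq F) (f n) * (C t - X) ^ b) :
    a = b ∧ ∃ c : k, ∀ n, g n = C c * f n := by
  classical
  have hq := two_le_q (F := F)
  have hq0 : ∀ n, 0 < qq F ^ n := fun n => by positivity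
  have h1 := iter_rel hq hf h
  have hP := PP_ne (t := t) hq
  have hg' : ∀ n, g n ≠ 0 := fun n e => by
    have := h1 n
    rw [e, zero_mul, zero_mul] at this
    exact mul_ne_zero (mul_ne_zero (hf n) ((expand_ne_zero (hq0 n)).2 hg))
      (pow_ne_zero _ (hP n)) this
  obtain rfl : a = b := by
    by_contra hab
    rcases Nat.lt_or_gt_of_ne hab with e0 | e0 <;> obtain ⟨e, rfl⟩ := Nat.exists_eq_add_of_lt e0
    · have := root_bound ht (n := 2 * B + 1) (e := e + 1)
        (u := g (2 * B + 1) * expand k (qq F ^ (2 * B + 1)) (f 0)) (by omega) (hf (2 * B + 1)) hg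
        (mul_right_cancel₀ (pow_ne_zero a (hP (2 * B + 1))) (by rw [h1]; ring))
      have := df (2 * B + 1)
      have := dg 0
      omega
    · have := root_bound ht (n := 2 * B + 1) (e := e + 1)
        (u := f (2 * B + 1) * expand k (qq F ^ (2 * B + 1)) (g 0)) (by omega) (hg' (2 * B + 1))
        (hf 0) (mul_right_cancel₀ (pow_ne_zero b (hP (2 * B + 1))) (by rw [← h1]; ring))
      have := dg (2 * B + 1)
      have := df 0
      omega
  refine ⟨rfl, ?_⟩
  replace h1 := fun n => mul_right_cancel₀ (pow_ne_zero a (hP n)) (h1 n)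
  obtain ⟨f', g', e1, e2, e3⟩ := extract_gcd (f 0) (g 0)
  have hd : gcd (f 0) (g 0) ≠ 0 := fun h0 => hf 0 (by rw [e1, h0, zero_mul])
  generalize gcd (f 0) (g 0) = d at *
  have h2 : ∀ n, f n * expand k (qq F ^ n) g' = g n * expand k (qq F ^ n) f' := fun n => by
    refine mul_left_cancel₀ ((expand_ne_zero (hq0 n)).2 hd) ?_
    have := h1 n
    rw [e1, e2, map_mul, map_mul] at this
    linear_combination this
  have h3 : IsCoprime (expand k (qq F ^ B) f') (expand k (qq F ^ B) g') :=
    (isCoprime_expand (hq0 B).ne').2 (gcd_isUnit_iff f' g' |>.1 e3)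
  have hB := Nat.lt_pow_self hq (n := B)
  have h4 := natDegree_le_of_dvd (h3.dvd_of_dvd_mul_right ⟨g B, by rw [h2]; ring⟩) (hf B)
  have h5 := natDegree_le_of_dvd (h3.symm.dvd_of_dvd_mul_right ⟨f B, by rw [← h2]; ring⟩) (hg' B)
  rw [natDegree_expand] at h4 h5
  have := df B
  have := dg B
  obtain ⟨c, rfl⟩ := natDegree_eq_zero.1 (show f'.natDegree = 0 by nlinarith)
  obtain ⟨c', rfl⟩ := natDegree_eq_zero.1 (show g'.natDegree = 0 by nlinarith)
  have hc : c ≠ 0 := fun e => hf 0 (by rw [e1, e, C_0, mul_zero])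
  refine ⟨c' / c, fun n => mul_right_cancel₀ (C_ne_zero.2 hc) ?_⟩
  have := h2 n
  rw [expand_C, expand_C] at this
  rw [← this, mul_right_comm, ← C_mul, div_mul_cancel₀ _ hc, mul_comm]

lemma height_exact (ht : Tr F t) {s B : ℕ} (hs : 1 ≤ s) {f g : ℕ → k[X]} {e : k[X]}
    (hf : ∀ n, f n ≠ 0) (df : ∀ n, (f n).natDegree ≤ B) (dg : ∀ n, (g n).natDegree ≤ B)
    (h : ∀ n, f (n + 1) * expand k (qq F) (g n + f n * e) =
      (C t - X) ^ s * expand k (qq F) (f n) * g (n + 1)) : ∃ b, Rel (qq F) t s b (-e) := by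
  have h1 : g 1 * f 0 - g 0 * f 1 = 0 := by
    by_contra h0
    have := (height ht (a := 0) (b := s) (B := B + B) (f := fun n => f n * f (n + 1))
      (g := fun n => g (n + 1) * f n - g n * f (n + 1)) (fun n => mul_ne_zero (hf _) (hf _)) h0
      (fun n => natDegree_mul_le.trans (add_le_add (df _) (df _)))
      (fun n => (natDegree_sub_le _ _).trans (max_le
        (natDegree_mul_le.trans (add_le_add (dg _) (df _)))
        (natDegree_mul_le.trans (add_le_add (dg _) (df _))))) fun n => by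
      have e1 := h n
      have e2 := h (n + 1)
      simp only [map_add, map_mul, map_sub] at e1 e2 ⊢
      linear_combination f (n + 1) * expand k (qq F) (f n) * e2 -
        f (n + 1 + 1) * expand k (qq F) (f (n + 1)) * e1).1
    omega
  obtain ⟨b, -, hb⟩ := rel_of_frac (t := t) (s := s) (g := g 0 + f 0 * e) (e := -e) two_le_q (hf 0)
    (mul_left_cancel₀ (hf 1) (by
      linear_combination f 0 * h 0 + (C t - X) ^ s * expand k (qq F) (f 0) * h1))
  exact ⟨b, hb⟩

end Pool.Agent.MP_3924c3_nt
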