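import Pool.Agent.MP_3924c3_nt.Basis
import Pool.Agent.MP_3924c3_nt.Count

/-! The dimension of the span of the finite multiple zeta values. -/

open Finset Polynomial Module

namespace Pool.Agent.MP_3924c3_nt

open Pool.Agent.MP_cbe134_nt.FF

section letters

variable {F k : Type*} [Field F] [Fintype F] [Field k] [Algebra F k] {t : k}

lemma card_Let (s : ℕ) :
    Nat.card {l : Let F t // l.wt = s} = ∑ r ∈ range (s + 1), gg F t s r := by
  let e : {l : Let F t // l.wt = s} ≃ Σ r : Fin (s + 1), Fin (gg F t s r) :=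
    { toFun := fun l => ⟨⟨l.1.dep, Nat.lt_succ_of_le (l.1.dep_le.trans l.2.le)⟩, l.1.idx,
        l.1.lt.trans_eq (congrArg (gg F t · l.1.dep) l.2)⟩
      invFun := fun x => ⟨⟨s, x.1, x.2, x.2.2⟩, rfl⟩
      left_inv := by rintro ⟨⟨_, _, _, _⟩, rfl⟩; rfl
      right_inv := fun _ => rfl }
  rw [Nat.card_congr e, Nat.card_sigma, ← Fin.sum_univ_eq_sum_range (gg F t s)]
  simp

lemma coeff_cn_Let (ht : Tr F t) (s : ℕ) : PowerSeries.coeff s (cn (Let.wt (F := F) (t := t))) +
    (if 1 ≤ s ∧ (qq F - 1) ∣ s then 1 else 0) = ((s + qq F - 1) / qq F : ℕ) := by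
  have hq := two_le_q (F := F)
  rw [coeff_cn, card_Let]
  rcases Nat.eq_zero_or_pos s with rfl | hs
  · simp [ht.gg_zero, Nat.div_eq_of_lt (show qq F - 1 < qq F by omega)]
  · rw [← ht.sum_gg hs (ht.QQ_self hs)]
    simp [show 1 ≤ s from hs]

end letters

variable (F : Type*) [Field F] [Fintype F]

lemma finFib_wE : FinFib (wE (F := F)) := finFib_of_le fun w =>
  ((Set.finite_Iic w).prod (tr_X.finite_words w)).subset fun A (h : qq F * A.1 + wtL A.2 ≤ w) => by
    have := Nat.le_mul_of_pos_left A.1 (show 0 < qq F by have := two_le_q (F := F); omega)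
    exact ⟨by simp only [Set.mem_Iic]; omega, by simp only [Set.mem_ofPred_eq]; omega⟩

theorem dim_series : PowerSeries.mk (fun w => (finrank (RatFunc F) (ZA F w) : ℤ)) *
    (1 - ∑ i ∈ Icc 1 (qq F), PowerSeries.X ^ i) = 1 - PowerSeries.X ^ (qq F - 1) := by
  have hq := two_le_q (F := F)
  obtain ⟨P, hP⟩ := (tr_X (F := F)).exists_adapted gen_X
  obtain ⟨E, hE⟩ := exists_E hP
  have h1 : PowerSeries.mk (fun w => (finrank (RatFunc F) (ZA F w) : ℤ)) = cn (wE (F := F)) := by
    ext w
    have := finFib_wE F w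
    let i := Fintype.ofFinite {A // wE (F := F) A = w}
    let _ : Fintype {A | wE (F := F) A = w} := i
    rw [PowerSeries.coeff_mk, coeff_cn, ZA_eq hP hE, Set.image_eq_range, Nat.card_eq_fintype_card]
    exact congrArg _ (finrank_span_eq_card ((indep_E hP hE).comp _ Subtype.val_injective))
  have h2 : FinFib (Let.wt (F := F) (t := (RatFunc.X : RatFunc F))) := finFib_of_le finite_Let
  have h3 : FinFib (wtL (F := F) (t := (RatFunc.X : RatFunc F))) := finFib_of_le tr_X.finite_words
  refine series_eq hq ?_ (coeff_cn_Let (tr_X (F := F)))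
  rw [h1, show cn (wE (F := F)) = _ from cn_prod (finFib_mul (by omega)) h3]
  have h4 : cn wtL * (1 - cn Let.wt) = 1 := cn_list h2 h3
  rw [mul_right_comm (cn _), cn_mul (by omega), one_mul, h4]

theorem weights_indep : iSupIndep (ZA F) := by
  obtain ⟨P, hP⟩ := (tr_X (F := F)).exists_adapted gen_X
  obtain ⟨E, hE⟩ := exists_E hP
  intro w
  refine ((indep_E hP hE).disjoint_span_image (s := {A | wE A = w}) (t := {A | wE A = w}ᶜ)
    disjoint_compl_right).mono (ZA_eq hP hE w).le (iSup₂_le fun v hv => ?_)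
  rw [ZA_eq hP hE v]
  exact Submodule.span_mono (Set.image_mono fun A (h : wE A = v) e => hv (h.symm.trans e))

end Pool.Agent.MP_3924c3_nt
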