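import Pool.Agent.MP_3924c3_nt.SeqIndep
import Pool.Agent.MP_3924c3_nt.Carry
import Pool.Agent.MP_cbe134_nt.FFLetters

/-! Linear independence modulo almost all primes. -/

open Finset Polynomial Filter

namespace Pool.Agent.MP_3924c3_nt

open Pool.Agent.MP_cbe134_nt.FF

variable {F k : Type*} [Field F] [Fintype F] [Field k] [Algebra F k] {t : k}

omit [Fintype F] in
lemma dvd_of_sqfree {f g : F[X]} (hf : Squarefree f)
    (h : ∀ P : F[X], P.Monic → Irreducible P → P ∣ f → P ∣ g) : f ∣ g := by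
  classical
  obtain ⟨f', e⟩ := gcd_dvd_left f g
  by_cases hu : IsUnit f'
  · rw [e, hu.mul_right_dvd]
    exact gcd_dvd_right _ _
  obtain ⟨P, h1, h2, h3⟩ := exists_monic_irreducible_factor f' hu
  have h4 : P ∣ f := e ▸ h3.mul_left _
  exact absurd (hf P (e ▸ mul_dvd_mul (dvd_gcd h4 (h P h1 h2 h4)) h3)) h2.not_isUnit

lemma bracket_dvd {D : ℕ} (hD : D.Prime) {a : F[X]}
    (h : ∀ P : F[X], P.Monic → Irreducible P → P.natDegree = D → P ∣ a) :
    X ^ qq F ^ D - X ∣ (X ^ qq F - X) * a := by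
  obtain ⟨p, hp⟩ := CharP.exists F
  obtain ⟨n, -, hn⟩ := FiniteField.card F p
  refine dvd_of_sqfree (galois_poly_separable p _ (dvd_pow (by
    rw [qq, hn]; exact dvd_pow_self _ n.ne_zero) hD.ne_zero)).squarefree fun P h1 h2 h3 => ?_
  rw [qq, ← Nat.card_eq_fintype_card] at h3 ⊢
  rcases (Nat.dvd_prime hD).1 (h2.natDegree_dvd_of_dvd_X_pow_card_pow_sub_X h3) with e | e
  · simpa using (h2.natDegree_dvd_iff_dvd_X_pow_card_pow_sub_X.1 e.dvd).mul_right a
  · exact (h P h1 h2 e).mul_left _

omit [Fintype F] in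
lemma deg_eval (u : F[X][X]) : ∃ δ, ∀ Q, (u.eval (X ^ Q)).natDegree ≤ δ + u.natDegree * Q := by
  refine ⟨(range (u.natDegree + 1)).sup fun i => (u.coeff i).natDegree, fun Q => ?_⟩
  rw [eval_eq_sum_range]
  refine natDegree_sum_le_of_forall_le _ _ fun i hi => natDegree_mul_le.trans (add_le_add
    (le_sup (f := fun i => (u.coeff i).natDegree) hi) ?_)
  rw [← pow_mul, natDegree_X_pow, mul_comm]
  exact Nat.mul_le_mul_right _ (Nat.lt_succ_iff.1 (mem_range.1 hi))

omit [Fintype F] in
lemma eq_zero_of_digits {N : ℕ} {u : F[X][X]} (hu : u.natDegree < N)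
    (h : u.eval₂ (expand F N).toRingHom X = 0) : u = 0 := by
  ext a j
  by_cases ha : a < N
  swap
  · rw [coeff_eq_zero_of_natDegree_lt (p := u) (by omega), coeff_zero, coeff_zero, coeff_zero]
  have h1 := congrArg (coeff · (N * j + a)) h
  simp only [eval₂_eq_sum_range' _ hu, finsetSum_coeff, coeff_mul_X_pow', coeff_zero] at h1 ⊢
  rw [sum_eq_single a, if_pos (by omega), Nat.add_sub_cancel] at h1
  · exact (coeff_expand_mul' (by omega) _ _).symm.trans h1
  · intro i hi hia
    rw [mem_range] at hi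
    split_ifs with h2
    · refine (coeff_expand (by omega) _ _).trans (if_neg fun h3 => hia ?_)
      have := (Nat.modEq_iff_dvd' h2).2 h3
      rwa [Nat.ModEq, Nat.mul_add_mod, Nat.mod_eq_of_lt hi, Nat.mod_eq_of_lt ha] at this
    · rfl
  · simp [ha]

omit [Fintype F] in
lemma eval_mp (u : F[X][X]) (a : F[X]) : (mp F t u).eval (aeval t a) = aeval t (u.eval a) := by
  rw [eval_map]
  exact eval₂_hom (aeval t : F[X] →ₐ[F] k).toRingHom a

omit [Fintype F] in
lemma clear_family (hg : Gen F t) {S : Type*} [Fintype S] (β : S → k[X]) :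
    ∃ a : k, a ≠ 0 ∧ ∃ γ : S → F[X][X], ∀ A, mp F t (γ A) = a • β A := by
  classical
  choose a ha hd v hv using fun A => hg.clear (β A)
  choose d hd using hd
  refine ⟨∏ A, a A, prod_ne_zero_iff.2 fun A _ => ha A,
    fun A => C (∏ B ∈ univ.erase A, d B) * v A, fun A => ?_⟩
  rw [← prod_erase_mul _ _ (mem_univ A), mul_smul, ← hv, smul_eq_C_mul]
  simp [mp, hd, Polynomial.map_prod]

variable {S : Type*} [Fintype S] {len wt : S → ℕ} {m : S → S → F[X][X]} {T : ℕ → S → F[X]} {c : ℕ}

variable (t len wt m T c) in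
/-- a triangular system of polynomial sequences -/
structure Sys : Prop where
  step : ∀ d A, T (d + 1) A = (X - X ^ qq F ^ (d + 1)) ^ wt A * T d A +
    ∑ B, (m A B).eval ((X ^ qq F ^ (d + 1)) ^ qq F) * ((X - X ^ qq F ^ (d + 1)) ^ wt B * T d B)
  deg : ∀ d A, (T d A).natDegree ≤ c * qq F ^ (d + 1)
  hm : ∀ A B, m A B ≠ 0 → len A = len B + 1
  hr : ∀ A B, len A = 0 → len B = 0 → wt A = wt B → A = B
  h0 : ∀ d A, len A = 0 → T d A ≠ 0
  hex : ∀ (n w : ℕ) (c : S → k), (∀ A, c A ≠ 0 → len A = n + 1 ∧ wt A = w) →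
    (∀ B s, 1 ≤ s → wt B + s = w → ∃ b, Rel (qq F) t s b (∑ A, C (c A) * mp F t (m A B))) → c = 0

theorem Sys.indep (H : Sys t len wt m T c) (ht : Tr F t) (hg : Gen F t) (U : Ultrafilter ℕ)
    (hU : (U : Filter ℕ) ≤ atTop) (β : S → F[X][X])
    (hβ : ∀ᶠ d in U, ∑ A, (β A).eval (X ^ qq F ^ (d + 1)) * T d A = 0) : β = 0 := by
  classical
  have hq := two_le_q (F := F)
  have hinj : Function.Injective (mp F t) := map_injective _ ht
  have e0 : mp F t 0 = 0 := Polynomial.map_zero _
  let N : ℕ → Submodule k[X] (S → k[X]) := fun n =>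
    { carrier := {β | ∀ᶠ d in U,
        ∑ A, (β A).eval (t ^ qq F ^ (d - n + 1)) * aeval t (T (d - n) A) = 0}
      add_mem' := fun ha hb => (ha.and hb).mono fun d h => by
        simp [add_mul, sum_add_distrib, h.1, h.2]
      zero_mem' := Eventually.of_forall fun _ => by simp
      smul_mem' := fun r x hx => hx.mono fun d h => by
        simp [mul_assoc, ← mul_sum, h] }
  have hN : ∀ n (γ : S → F[X][X]), (fun A => mp F t (γ A)) ∈ N n ↔
      ∀ᶠ d in U, ∑ A, (γ A).eval (X ^ qq F ^ (d - n + 1)) * T (d - n) A = 0 := fun n γ => by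
    refine eventually_congr (Eventually.of_forall fun d => ?_)
    rw [← map_eq_zero_iff _ ht, map_sum]
    simp only [map_mul, ← eval_mp, aeval_X_pow]
  have h := seq_indep ht (len := len) (wt := wt) (m := fun A B => mp F t (m A B)) N
    (Fintype.card S * (c + 1) + 1) ?_ ?_ (fun A B h => H.hm A B fun e => h (by rw [e, e0])) H.hr
    ?_ H.hex 0 _ ((hN 0 β).2 hβ)
  · exact funext fun A => hinj ((congrFun h A).trans e0.symm)
  · intro n γ hγ
    refine (((eventually_gt_atTop n).filter_mono hU).and hγ).mono fun d ⟨h1, h2⟩ => ?_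
    rw [show d - n = d - (n + 1) + 1 by omega, pow_succ, pow_mul] at h2
    rw [sum_pull (T := fun A => aeval t (T (d - (n + 1)) A))
      (T' := fun A => aeval t (T (d - (n + 1) + 1) A)), h2]
    intro A
    rw [H.step, map_add, map_sum]
    simp only [map_mul, ← eval_mp, map_pow, map_sub, aeval_X]
  · intro n γ hγ h0
    obtain ⟨a, ha, δ, hδ⟩ := clear_family hg γ
    have h1 : (fun A => mp F t (δ A)) = C a • γ := funext fun A => by simp [hδ, smul_eq_C_mul]
    obtain ⟨δ', h2, h3, h4, h5⟩ := bounded U (fun d => qq F ^ (d - n + 1))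
      (fun d => Nat.one_le_pow _ _ (by omega)) (fun d => T (d - n)) c
      (Eventually.of_forall fun d => H.deg _) δ ((hN n δ).1 (h1 ▸ (N n).smul_mem _ hγ))
      (fun e => h0 (funext fun A => by simpa [e, e0, ha] using (hδ A).symm))
    refine ⟨_, (hN n δ').2 h3, fun e => h2 (funext fun A => hinj ((congrFun e A).trans e0.symm)),
      fun A hA e => h4 A (fun e' => hA (by rw [e', e0])) (hinj (by rw [hδ, e, e0, smul_zero])),
      fun A => natDegree_map_le.trans (h5 A)⟩
  · intro n γ hγ A hA h1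
    have h2 : γ A = 0 := by
      refine eq_zero_of_infinite_isRoot _ (Set.infinite_of_injOn_mapsTo
        (f := fun d => t ^ qq F ^ (d - n + 1)) (s := {d | n ≤ d ∧ ∑ A, (γ A).eval
          (t ^ qq F ^ (d - n + 1)) * aeval t (T (d - n) A) = 0}) (fun i hi j hj e => ?_)
        (fun d hd => ?_) (frequently_cofinite_iff_infinite.1 ?_))
      · by_contra hij
        exact ht.tq_ne (by have := hi.1; have := hj.1; omega) e
      · have h3 := hd.2
        rw [sum_eq_single A (fun B _ hB => by
          rw [not_not.1 (mt (h1 B) hB), eval_zero, zero_mul]) (by simp)] at h3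
        exact (mul_eq_zero.1 h3).resolve_right (ht.aeval_ne (H.h0 _ A hA))
      · rw [Nat.cofinite_eq_atTop]
        exact (((eventually_ge_atTop n).filter_mono hU).and hγ).frequently.filter_mono hU
    exact funext fun B => by_contra fun e => e (h1 B e ▸ h2)

omit [Fintype F] in
lemma pull_ne {q : ℕ} {D : Type*} [CommRing D] [IsDomain D] (φ φ' : F[X][X] →+* D)
    (hm : ∀ A B, m A B ≠ 0 → len A = len B + 1) (h1 : φ (C X - X) ≠ 0)
    (h2 : ∀ u, φ (expand F[X] q u) = φ' u) {β : S → F[X][X]} (h : ∃ A, φ' (β A) ≠ 0) :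
    ∃ A, φ (pull q X wt m β A) ≠ 0 := by
  classical
  obtain ⟨B, hB, hmax⟩ := exists_max_image (univ.filter fun A => φ' (β A) ≠ 0) len
    (h.imp fun A hA => by simpa using hA)
  refine ⟨B, ?_⟩
  rw [pull, map_mul, map_pow, h2, map_add, map_sum, sum_eq_zero, add_zero]
  · exact mul_ne_zero (pow_ne_zero _ h1) (by simpa using hB)
  · intro A _
    rw [map_mul]
    by_contra h0
    have := hm A B fun e => h0 (by simp [e])
    have := hmax A (by simpa using left_ne_zero_of_mul h0)
    omega

lemma Sys.iter (H : Sys t len wt m T c) (n : ℕ) (β : S → F[X][X]) (d : ℕ) :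
    ∑ A, ((pull (qq F) X wt m)^[n] β A).eval (X ^ qq F ^ (d + 1)) * T d A =
      ∑ A, (β A).eval (X ^ qq F ^ (d + n + 1)) * T (d + n) A := by
  induction n generalizing d with
  | zero => rfl
  | succ n ih =>
    rw [Function.iterate_succ_apply', sum_pull _ _ _ _ _ _ (H.step d), ← pow_mul, ← pow_succ, ih,
      show d + 1 + n = d + (n + 1) by omega]

theorem Sys.indep_mod (H : Sys t len wt m T c) (ht : Tr F t) (hg : Gen F t) (a : S → F[X])
    (D₀ : ℕ) (ha : ∀ d, D₀ ≤ d → ∀ P : F[X], P.Monic → Irreducible P → P.natDegree = d + 1 →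
      P ∣ ∑ A, a A * T d A) : a = 0 := by
  classical
  have hq := two_le_q (F := F)
  by_contra h0
  obtain ⟨n, hn⟩ : ∃ n, n = Fintype.card (Option S) * (c + 1) + 1 := ⟨_, rfl⟩
  have hN := Nat.lt_pow_self hq (n := n)
  let G := (pull (qq F) X wt m)^[n] fun A => C ((X ^ qq F - X) * a A)
  let ψ : ℕ → F[X][X] →+* F[X] := fun j =>
    eval₂RingHom (expand F (qq F ^ n)).toRingHom (X ^ qq F ^ j)
  have hX : ∀ i j, i ≠ j → (X ^ qq F ^ i - X ^ qq F ^ j : F[X]) ≠ 0 := fun i j hij e =>
    hij (Nat.pow_right_injective hq (by simpa using congrArg natDegree (sub_eq_zero.1 e)))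
  have h1 : ∀ i j, i + j = n → ∃ A, ψ j ((pull (qq F) X wt m)^[i]
      (fun A => C ((X ^ qq F - X) * a A)) A) ≠ 0 := fun i => by
    induction i with
    | zero =>
      intro j _
      obtain ⟨A, hA⟩ := Function.ne_iff.1 h0
      refine ⟨A, fun e => mul_ne_zero (by simpa using hX 1 0 one_ne_zero) hA
        ((expand_eq_zero (by omega : 0 < qq F ^ n)).1 ?_)⟩
      exact (eval₂_C _ _).symm.trans e
    | succ i ih =>
      intro j hj
      rw [Function.iterate_succ_apply']
      refine pull_ne (ψ j) (ψ (j + 1)) H.hm ?_ (fun u => ?_) (ih _ (by omega))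
      · simpa [ψ] using hX n j (by omega)
      · simp only [ψ, coe_eval₂RingHom]
        rw [← eval_map, map_expand, expand_eval, eval_map, ← pow_mul, ← pow_succ]
  obtain ⟨A₀, hA₀⟩ := h1 n 0 rfl
  let M : F[X][X] := X ^ qq F ^ n - C X
  have hM : M.Monic := monic_X_pow_sub_C _ (by omega)
  have hMd : M.natDegree = qq F ^ n := natDegree_X_pow_sub_C
  have hψ : ψ 0 M = 0 := by simp [ψ, M]
  let Hh : S → F[X][X] := fun A => G A %ₘ M
  have hH : ∀ A, Hh A = G A - M * (G A /ₘ M) := fun A => modByMonic_eq_sub_mul_div _ _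
  have hMe : ∀ d, M.eval (X ^ qq F ^ (d + 1)) = X ^ qq F ^ (d + n + 1) - X := fun d => by
    simp only [M, eval_sub, eval_pow, eval_X, eval_C, ← pow_mul, ← pow_add]
    rw [add_right_comm]
  have h2 : ∀ d, ∃ r : F[X], D₀ ≤ d → (d + n + 1).Prime →
      ∑ A, (Hh A).eval (X ^ qq F ^ (d + 1)) * T d A = M.eval (X ^ qq F ^ (d + 1)) * r := fun d => by
    by_cases h : D₀ ≤ d ∧ (d + n + 1).Prime
    swap
    · exact ⟨0, fun h1 h2 => absurd ⟨h1, h2⟩ h⟩
    suffices h3 : M.eval (X ^ qq F ^ (d + 1)) ∣ ∑ A, (Hh A).eval (X ^ qq F ^ (d + 1)) * T d A from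
      h3.imp fun r hr _ _ => hr
    simp only [hH, eval_sub, eval_mul, sub_mul, sum_sub_distrib, mul_assoc, ← mul_sum]
    refine dvd_sub ?_ (dvd_mul_right _ _)
    rw [H.iter, hMe]
    simp only [eval_C, mul_assoc, ← mul_sum]
    exact bracket_dvd h.2 (ha _ (by omega))
  choose R hR using h2
  choose δ hδ using fun A => deg_eval (Hh A)
  have h3 : ∃ᶠ d in atTop, (d + n + 1).Prime := frequently_atTop.2 fun d => by
    obtain ⟨p, h1, h2⟩ := Nat.exists_infinite_primes (d + n + 1)
    exact ⟨p - n - 1, by omega, by rwa [show p - n - 1 + n + 1 = p by omega]⟩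
  obtain ⟨U, hU⟩ := Ultrafilter.exists_le _ (h := frequently_iff_neBot.1 h3)
  have hU1 : (U : Filter ℕ) ≤ atTop := hU.trans inf_le_left
  have h4 : ∀ᶠ d in U, ∑ A, (Hh A).eval (X ^ qq F ^ (d + 1)) * T d A =
      M.eval (X ^ qq F ^ (d + 1)) * R d :=
    (((eventually_ge_atTop D₀).filter_mono hU1).and
      (le_principal_iff.1 (hU.trans inf_le_right))).mono fun d h => hR d h.1 h.2
  have hdeg : ∀ᶠ d in U, ∀ o : Option S, (o.elim (R d) (T d)).natDegree ≤ c * qq F ^ (d + 1) := by
    refine (((eventually_ge_atTop (univ.sup δ)).filter_mono hU1).and h4).mono fun d h o => ?_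
    cases o with
    | some A => exact H.deg d A
    | none =>
      by_cases e : R d = 0
      · simp [e]
      have h8 : (M.eval (X ^ qq F ^ (d + 1))).natDegree = qq F ^ n * qq F ^ (d + 1) := by
        rw [hMe, FiniteField.X_pow_card_pow_sub_X_natDegree_eq _ (by omega) hq]
        ring
      have h9 : (∑ A, (Hh A).eval (X ^ qq F ^ (d + 1)) * T d A).natDegree ≤
          qq F ^ n * qq F ^ (d + 1) + c * qq F ^ (d + 1) :=
        natDegree_sum_le_of_forall_le _ _ fun A _ => natDegree_mul_le.trans (add_le_add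
          ((hδ A _).trans (by
            have e1 : (Hh A).natDegree < qq F ^ n := hMd ▸ natDegree_modByMonic_lt _ hM
              (fun e => by rw [e, natDegree_one] at hMd; omega)
            have e2 := (le_sup (f := δ) (mem_univ A)).trans h.1
            have e3 := Nat.lt_pow_self hq (n := d + 1)
            have e4 := Nat.mul_le_mul_right (qq F ^ (d + 1)) (Nat.succ_le_of_lt e1)
            rw [Nat.succ_mul] at e4
            omega)) (H.deg d A))
      rw [h.2, natDegree_mul (fun e' => by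
        rw [e', natDegree_zero] at h8
        exact absurd h8 (by positivity)) e, h8] at h9
      exact Nat.le_of_add_le_add_left h9
  obtain ⟨β, h5, h6, -, h7⟩ := bounded U (fun d => qq F ^ (d + 1))
    (fun d => Nat.one_le_pow _ _ (by omega)) (fun d (o : Option S) => o.elim (R d) (T d)) c hdeg
    (fun o => o.elim (-M) Hh) (h4.mono fun d h => by simp [h])
    (fun e => hM.ne_zero (by simpa using congrFun e none))
  simp only [Fintype.sum_option, Option.elim] at h6
  have h8 : β none ≠ 0 := fun e => h5 (funext fun o => by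
    cases o with
    | none => exact e
    | some A => exact congrFun (H.indep ht hg U hU1 (fun A => β (some A))
        (h6.mono fun d h => by simpa [e] using h)) A)
  have h9 := congrArg (ψ 0) (congrFun (H.indep ht hg U hU1
    (fun A => β none * Hh A + M * β (some A)) ((h4.and h6).mono fun d h => by
      simp only [eval_add, eval_mul, add_mul, sum_add_distrib, mul_assoc, ← mul_sum, h.1]
      linear_combination M.eval (X ^ qq F ^ (d + 1)) * h.2)) A₀)
  simp only [hH, map_add, map_mul, map_sub, hψ, zero_mul, sub_zero, add_zero, Pi.zero_apply,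
    map_zero, mul_eq_zero] at h9
  refine h8 (eq_zero_of_digits (N := qq F ^ n) ((h7 none).trans_lt (hn ▸ hN)) ?_)
  simpa [ψ] using h9.resolve_right hA₀

end Pool.Agent.MP_3924c3_nt
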