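import Pool.Agent.MP_3924c3_nt.States

/-! Abel summation with control on the boundary terms. -/

open Finset Polynomial

namespace Pool.Agent.MP_3924c3_nt

open Pool.Agent.MP_cbe134_nt.FF

variable {F k : Type*} [Field F] [Fintype F] [Field k] [Algebra F k] {t : k}
  {P : Let F t → F[X][X]}

/-- the span of boundary terms times words -/
noncomputable def RB (P : Let F t → F[X][X]) (w : ℕ) : Submodule k (ℕ → k) := Submodule.span k
  {x | ∃ (s : ℕ) (b : k[X]) (L : List (Let F t)), b ∈ BB k (qq F) s ∧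
    (C t - X) ^ s ∣ expand k (qq F) b ∧ s + wtL L = w ∧ x = letK F t s b * Wlt (la P) L}

lemma word_mem_RB (L : List (Let F t)) : Wlt (la P) L ∈ RB P (wtL L) :=
  Submodule.subset_span ⟨0, 1, L, (mem_BB two_le_q).2 (by simp), by simp, by simp,
    by rw [lett_one, one_mul]⟩

lemma psum_mem_RB (ht : Tr F t) (hP : Adapted F t P) (L : List (Let F t)) :
    ∀ (s : ℕ) (u : k[X]), 1 ≤ s → u ∈ BB k (qq F) (s - 1) →
      psum k (letK F t s u * Wlt (la P) L) ∈ RB P (s + wtL L) := by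
  have key : ∀ L : List (Let F t), (∀ (s : ℕ) (e b : k[X]), 1 ≤ s → e ∈ BB k (qq F) (s - 1) →
      Rel (qq F) t s b e → psum k (letK F t s e * Wlt (la P) L) ∈ RB P (s + wtL L)) →
      ∀ (s : ℕ) (u : k[X]), 1 ≤ s → u ∈ BB k (qq F) (s - 1) →
        psum k (letK F t s u * Wlt (la P) L) ∈ RB P (s + wtL L) := by
    intro L h s u hs hu
    rw [← ht.QQ_self hs] at hu
    obtain ⟨e, ⟨he, b, hb⟩, v, hv, rfl⟩ :=
      Submodule.mem_sup.1 (sup_le le_sup_left (hP.span s s) hu)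
    rw [map_add, add_mul, map_add]
    refine add_mem (h s e b hs he hb) ?_
    refine (Submodule.span_le (p := (RB P (s + wtL L)).comap
      (psum k ∘ₗ LinearMap.mulRight k (Wlt (la P) L) ∘ₗ letK F t s))).2 ?_ hv
    rintro _ ⟨l, rfl, -, rfl⟩
    exact wtL_cons l L ▸ word_mem_RB (l :: L)
  induction L with
  | nil =>
    refine key _ fun s e b hs he h => ?_
    rw [Wlt_nil, mul_one, ← (ht.rel_iff hs).1 h]
    exact Submodule.subset_span ⟨s, b, [], h.mem_of_e two_le_q (BB_mono (by omega) he), ⟨_, h⟩, rfl,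
      by rw [Wlt_nil, mul_one]⟩
  | cons l L ih =>
    refine key _ fun s e b hs he h => ?_
    have hb := h.mem_of_e two_le_q (BB_mono (by omega) he)
    have h1 := psum_mul_psum (letK F t s e) (la P l * Wlt (la P) L)
    rw [← (ht.rel_iff hs).1 h, ← Wlt_cons, ← map_add (letK F t s), ← mul_assoc, la, lett_mul,
      ← sub_eq_iff_eq_add] at h1
    rw [← h1]
    refine sub_mem (Submodule.subset_span ⟨s, b, l :: L, hb, ⟨_, h⟩, rfl, rfl⟩) ?_
    have := ht.one_le_wt l
    have h3 := ih (s + l.wt) _ (by omega) (BB_mono (by omega) (mul_mem_BB two_le_q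
      (add_mem hb (BB_mono (Nat.sub_le s 1) he)) (hP.mem l).1))
    rwa [add_assoc, ← wtL_cons] at h3

lemma Wlt_mem_RB (ht : Tr F t) (hP : Adapted F t P) (s : List ℕ) (h1 : ∀ a ∈ s, 1 ≤ a) :
    Wlt (SS F t) s ∈ RB P s.sum := by
  induction s with
  | nil => exact word_mem_RB []
  | cons a s ih =>
    have ha := h1 a (by simp)
    refine (Submodule.span_le (p := (RB P (a :: s).sum).comap
      (psum k ∘ₗ LinearMap.mulLeft k (SS F t a)))).2 ?_ (ih fun b hb => h1 b (by simp [hb]))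
    rintro _ ⟨s', b, L, h2, -, h4, rfl⟩
    obtain ⟨H, h5, h6, -⟩ := ht.exists_H' ha
    have h7 := psum_mem_RB ht hP L (a + s') _ (by omega)
      (BB_mono (by omega) (mul_mem_BB two_le_q h5.1 h2))
    rwa [← lett_mul, ← h6, mul_assoc, add_assoc, h4] at h7

variable (F t) in
/-- the sequence of the `1 / ℓ_{D-1} ^ q` -/
noncomputable def vp : ℕ → k := letK F t (qq F) (C (t ^ qq F) - X)

lemma vp_mem (ht : Tr F t) : vp F t ∈ Slt F t (qq F) (qq F) := by
  have hq := two_le_q (F := F)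
  have h1 : Rel (qq F) t (qq F) (C (t ^ qq F) - X) (1 - (C (t ^ qq F) - X)) := by
    rw [MP_cbe134_nt.FF.Rel, expand_Z, add_sub_cancel, mul_one]
  rw [vp, (ht.rel_iff (by omega)).1 h1]
  refine psum_mem (ht.BB_le (s := qq F) (by omega) (fun j hj => ⟨j, ?_, ht.Z_pow_mem j⟩)
    (h1.mem_of_b (by omega) ((mem_BB hq).2 (by rw [natDegree_Y]; omega)))).2
  have := Nat.mul_le_mul_left j (show 1 ≤ qq F - 1 by omega)
  omega

lemma letK_succ (ht : Tr F t) {s : ℕ} {b β : k[X]} (h : expand k (qq F) b = (C t - X) ^ s * β)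
    (d : ℕ) : letK F t s b (d + 1) = β.eval (t ^ qq F ^ (d + 1)) * (LL F t d)⁻¹ ^ s := by
  have h1 := congrArg (eval (t ^ qq F ^ (d + 1))) h
  have h2 := ht.LL_ne (d + 1)
  rw [expand_eval, ← pow_mul, mul_comm, pow_mul] at h1
  rw [lett_apply, h1, ← LL]
  rw [LL_succ] at h2 ⊢
  have := left_ne_zero_of_mul h2
  have := right_ne_zero_of_mul h2
  simp only [eval_mul, eval_pow, eval_sub, eval_C, eval_X, mul_pow, inv_pow]
  field_simp

lemma vp_succ (ht : Tr F t) (d : ℕ) : vp F t (d + 1) = (LL F t d)⁻¹ ^ qq F := by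
  rw [vp, letK_succ ht (β := 1) (by rw [expand_Z, mul_one]), eval_one, one_mul]

lemma eval_eq_zero {s : ℕ} {b β : k[X]} (h : expand k (qq F) b = (C t - X) ^ s * β)
    (hs : ¬qq F ∣ s) : β.eval t = 0 := by
  have hq := two_le_q (F := F)
  have h1 := Nat.div_add_mod s (qq F)
  have h2 := Nat.mod_lt s (show 0 < qq F by omega)
  have h3 : s % qq F ≠ 0 := fun e => hs (Nat.dvd_of_mod_eq_zero e)
  obtain ⟨c, rfl⟩ := Z_pow_dvd (F := F) (t := t) (s / qq F) b
    ((pow_dvd_pow _ (by omega)).trans ⟨_, h⟩)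
  obtain ⟨n, hn⟩ : ∃ n, qq F * (s / qq F + 1) = s + (n + 1) :=
    ⟨qq F - s % qq F - 1, by rw [mul_add]; omega⟩
  rw [map_mul, map_pow, expand_Z, ← pow_mul, hn, pow_add, mul_assoc] at h
  rw [← mul_left_cancel₀ (pow_ne_zero _ (Y_ne t)) h]
  simp

end Pool.Agent.MP_3924c3_nt
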