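import Pool.Agent.MP_3924c3_nt.Defs
import Pool.Agent.MP_3924c3_nt.Reduce

/-! Reduction of sequences of rational functions modulo almost all primes. -/

open Finset Polynomial Filter

namespace Pool.Agent.MP_3924c3_nt

open Pool.Agent.MP_cbe134_nt.FF

variable {F : Type*} [Field F]

lemma tr_X : Tr F (RatFunc.X : RatFunc F) := fun a b h => by
  rw [RatFunc.aeval_X_left_eq_algebraMap, RatFunc.aeval_X_left_eq_algebraMap] at h
  exact IsFractionRing.injective F[X] (RatFunc F) h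

lemma gen_X : Gen F (RatFunc.X : RatFunc F) := fun x => ⟨x.denom, x.num, by
  rw [RatFunc.aeval_X_left_eq_algebraMap, RatFunc.aeval_X_left_eq_algebraMap]
  have := RatFunc.algebraMap_ne_zero x.denom_ne_zero
  exact ⟨this, by rw [mul_comm, ← eq_div_iff this, RatFunc.num_div_denom]⟩⟩

/-- the graph of the reduction modulo `P` -/
noncomputable def RP (P : Pr F) : Subring (RatFunc F × AdjoinRoot P.1) where
  carrier := {z | ∃ n d : F[X], AdjoinRoot.mk P.1 d ≠ 0 ∧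
    aeval RatFunc.X d * z.1 = aeval RatFunc.X n ∧ AdjoinRoot.mk P.1 d * z.2 = AdjoinRoot.mk P.1 n}
  mul_mem' := by
    rintro a b ⟨n, d, h1, h2, h3⟩ ⟨n', d', h1', h2', h3'⟩
    refine ⟨n * n', d * d', by simp [h1, h1'], ?_, ?_⟩
    · simp only [map_mul, ← h2, ← h2', Prod.fst_mul]; ring
    · simp only [map_mul, ← h3, ← h3', Prod.snd_mul]; ring
  one_mem' := ⟨1, 1, by simp, by simp, by simp⟩
  add_mem' := by
    rintro a b ⟨n, d, h1, h2, h3⟩ ⟨n', d', h1', h2', h3'⟩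
    refine ⟨n * d' + n' * d, d * d', by simp [h1, h1'], ?_, ?_⟩
    · simp only [map_mul, map_add, ← h2, ← h2', Prod.fst_add]; ring
    · simp only [map_mul, map_add, ← h3, ← h3', Prod.snd_add]; ring
  zero_mem' := ⟨0, 1, by simp, by simp, by simp⟩
  neg_mem' := by
    rintro a ⟨n, d, h1, h2, h3⟩
    exact ⟨-n, d, h1, by simp [← h2], by simp [← h3]⟩

lemma RP_poly (P : Pr F) (a : F[X]) : (aeval RatFunc.X a, AdjoinRoot.mk P.1 a) ∈ RP P :=
  ⟨a, 1, by simp, by simp, by simp⟩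

lemma RP_zero {P : Pr F} {y : AdjoinRoot P.1} (h : (0, y) ∈ RP P) : y = 0 := by
  obtain ⟨n, d, h1, h2, h3⟩ := h
  obtain rfl : n = 0 := tr_X (by simpa using h2.symm)
  simpa [h1] using h3

lemma mk_eq {f g : ∀ P : Pr F, AdjoinRoot P.1} : cls F f =
    cls F g ↔ ∀ᶠ P in cofinite, f P = g P := by
  rw [eventually_cofinite]
  refine Ideal.Quotient.eq.trans ?_
  simp only [← sub_eq_zero (a := f _)]
  rfl

lemma algebraMap_aeval (a : F[X]) :
    algebraMap (RatFunc F) (FA F) (aeval RatFunc.X a) = diag F a := by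
  rw [RatFunc.aeval_X_left_eq_algebraMap]
  exact IsLocalization.lift_eq _ _

variable (F) in
/-- the graph of the reduction of sequences -/
noncomputable def Red : Subalgebra (RatFunc F) ((ℕ → RatFunc F) × FA F) where
  carrier := {z | ∃ f, cls F f = z.2 ∧
    ∀ᶠ P : Pr F in cofinite, (z.1 P.1.natDegree, f P) ∈ RP P}
  mul_mem' := by
    rintro a b ⟨f, h1, h2⟩ ⟨g, h3, h4⟩
    exact ⟨f * g, by simp [h1, h3], (h2.and h4).mono fun P h => mul_mem h.1 h.2⟩
  add_mem' := by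
    rintro a b ⟨f, h1, h2⟩ ⟨g, h3, h4⟩
    exact ⟨f + g, by simp [h1, h3], (h2.and h4).mono fun P h => add_mem h.1 h.2⟩
  algebraMap_mem' := fun c => by
    obtain ⟨d, n, h1, h2⟩ := gen_X c
    have h0 : d ≠ 0 := fun e => h1 (by simp [e])
    have h3 : ∀ᶠ P : Pr F in cofinite, AdjoinRoot.mk P.1 d ≠ 0 := by
      simpa only [eventually_cofinite, not_not] using finite_dvd F h0
    refine ⟨fun P => (AdjoinRoot.mk P.1 d)⁻¹ * AdjoinRoot.mk P.1 n, ?_,
      h3.mono fun P h => ⟨n, d, h, h2, mul_inv_cancel_left₀ h _⟩⟩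
    refine (isUnit_diag F ⟨d, mem_nonZeroDivisors_of_ne_zero h0⟩).mul_left_cancel ?_
    change diag F d * _ = diag F d * algebraMap (RatFunc F) (FA F) c
    rw [← algebraMap_aeval, ← map_mul, h2, algebraMap_aeval, algebraMap_aeval]
    exact mk_eq.2 (h3.mono fun P h => mul_inv_cancel_left₀ h _)

variable {x y : ℕ → RatFunc F} {α β : FA F}

lemma Red_unique (h : (x, α) ∈ Red F) (h' : (x, β) ∈ Red F) : α = β := by
  obtain ⟨f, h1, h2⟩ := sub_mem h h'
  rw [← sub_eq_zero]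
  exact h1.symm.trans (mk_eq.2 (h2.mono fun P h => RP_zero (by simpa using h)))

lemma Red_congr (h : (x, α) ∈ Red F) (e : ∀ d, y (d + 1) = x (d + 1)) : (y, α) ∈ Red F := by
  obtain ⟨f, h1, h2⟩ := h
  refine ⟨f, h1, h2.mono fun P h => ?_⟩
  obtain ⟨d, hd⟩ := Nat.exists_eq_add_of_le' P.2.2.natDegree_pos
  dsimp only at h ⊢
  rwa [hd, e, ← hd]

lemma Red_poly (p : ℕ → F[X]) : (fun D => aeval RatFunc.X (p D),
    cls F fun P => AdjoinRoot.mk P.1 (p P.1.natDegree)) ∈ Red F :=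
  ⟨_, rfl, Eventually.of_forall fun P => RP_poly P _⟩

lemma dvd_of_Red {p : ℕ → F[X]} (h : (fun D => aeval RatFunc.X (p D), 0) ∈ Red F) :
    ∃ D₀, ∀ d, D₀ ≤ d → ∀ P : F[X], P.Monic → Irreducible P → P.natDegree = d + 1 →
      P ∣ p (d + 1) := by
  have h1 := eventually_cofinite.1 (mk_eq.1 (Red_unique (Red_poly p) h))
  refine ⟨h1.toFinset.sup fun P => P.1.natDegree, fun d hd P h2 h3 h4 => by_contra fun h5 => ?_⟩
  have : P.natDegree ≤ _ := le_sup (f := fun P : Pr F => P.1.natDegree) (b := ⟨P, h2, h3⟩)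
    (h1.mem_toFinset.2 fun e => h5 (h4 ▸ AdjoinRoot.mk_eq_zero.1 e))
  omega

variable [Fintype F]

lemma Red_frob : (fun D => RatFunc.X ^ qq F ^ D, algebraMap (RatFunc F) (FA F) RatFunc.X) ∈
    Red F := by
  have h := Red_poly (F := F) fun D => X ^ qq F ^ D
  simp only [aeval_X_pow] at h
  convert h using 2
  have h1 := algebraMap_aeval (F := F) X
  rw [aeval_X] at h1
  refine h1.trans (mk_eq.2 (Eventually.of_forall fun P => (AdjoinRoot.mk_eq_mk.2 ?_).symm))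
  rw [qq, ← Nat.card_eq_fintype_card]
  exact P.2.2.natDegree_dvd_iff_dvd_X_pow_card_pow_sub_X.1 dvd_rfl

lemma RP_SS (P : Pr F) (s : ℕ) {d : ℕ} (hd : d < P.1.natDegree) :
    (SS F RatFunc.X s d, ∑ a ∈ Mon F d, (AdjoinRoot.mk P.1 a)⁻¹ ^ s) ∈ RP P := by
  rw [SS, prod_mk_sum]
  refine sum_mem fun a ha => pow_mem (x := ((aeval RatFunc.X a)⁻¹, (AdjoinRoot.mk P.1 a)⁻¹)) ?_ s
  obtain ⟨h1, h2⟩ := mem_Mon.1 ha
  have h3 : AdjoinRoot.mk P.1 a ≠ 0 := AdjoinRoot.mk_ne_zero_of_natDegree_lt P.2.1 h1.ne_zero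
    (by omega)
  exact ⟨1, a, h3, (mul_inv_cancel₀ (tr_X.aeval_ne h1.ne_zero)).trans (map_one _).symm, by simp [h3]⟩

lemma Red_eta : ∃ α, (fun D => (LL F RatFunc.X (D - 1))⁻¹, α) ∈ Red F := by
  refine ⟨_, fun P => ∑ a ∈ Mon F (P.1.natDegree - 1), (AdjoinRoot.mk P.1 a)⁻¹ ^ 1, rfl,
    Eventually.of_forall fun P => ?_⟩
  have := RP_SS P 1 (Nat.sub_lt P.2.2.natDegree_pos one_pos)
  rwa [tr_X.SS_one, lett_apply, eval_one, pow_one, one_div] at this

lemma finsum_eq_Wlt {R : Type*} [CommRing R] (f : ℕ → F[X] → R) (s : List ℕ) (D : ℕ) :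
    ∑ᶠ a ∈ {a : Fin s.length → F[X] | (∀ i, (a i).Monic ∧ (a i).natDegree < D) ∧
      StrictAnti fun i => (a i).natDegree}, ∏ i, f (s.get i) (a i) =
    Wlt (fun n d => ∑ a ∈ Mon F d, f n a) s D := by
  classical
  let T : ∀ r : ℕ, ℕ → Finset (Fin r → F[X]) := fun r D =>
    (Fintype.piFinset fun _ => Low F D).filter fun a =>
      (∀ i, (a i).Monic) ∧ StrictAnti fun i => (a i).natDegree
  have hT : ∀ r D a, a ∈ T r D ↔ (∀ i, (a i).Monic ∧ (a i).natDegree < D) ∧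
      StrictAnti fun i => (a i).natDegree := fun r D a => by
    simp only [T, mem_filter, Fintype.mem_piFinset, mem_Low]
    exact ⟨fun h => ⟨fun i => ⟨h.2.1 i, (natDegree_lt_iff_degree_lt (h.2.1 i).ne_zero).2 (h.1 i)⟩,
      h.2.2⟩, fun h => ⟨fun i => (natDegree_lt_iff_degree_lt (h.1 i).1.ne_zero).1 (h.1 i).2,
        fun i => (h.1 i).1, h.2⟩⟩
  rw [show {a : Fin s.length → F[X] | (∀ i, (a i).Monic ∧ (a i).natDegree < D) ∧
      StrictAnti fun i => (a i).natDegree} = ↑(T s.length D) from Set.ext fun a => (hT _ _ a).symm,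
    finsum_mem_coe_finset]
  induction s generalizing D with
  | nil =>
    refine (sum_eq_single_of_mem (s := T 0 D) default ((hT _ _ _).2 ⟨fun i => i.elim0,
      fun i => i.elim0⟩) fun _ _ h => absurd (Subsingleton.elim _ _) h).trans ?_
    simp [Wlt]
  | cons n s ih =>
    simp only [Wlt, ← ih, sum_mul_sum, sum_sigma', List.length_cons, Fin.prod_univ_succ]
    refine sum_nbij' (fun a => ⟨(a 0).natDegree, a 0, Fin.tail a⟩) (fun z => Fin.cons z.2.1 z.2.2)
      (fun a ha => ?_) (fun z hz => ?_) (by simp) (fun z hz => ?_) fun _ _ => rfl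
    · obtain ⟨h1, h2⟩ := (hT _ _ _).1 ha
      simp only [mem_sigma, mem_range, mem_Mon, hT]
      exact ⟨(h1 0).2, ⟨(h1 0).1, trivial⟩, fun i => ⟨(h1 _).1, h2 (Fin.succ_pos i)⟩,
        h2.comp_strictMono Fin.strictMono_succ⟩
    · simp only [mem_sigma, mem_range, mem_Mon, hT] at hz ⊢
      obtain ⟨h1, ⟨h2, h3⟩, h4, h5⟩ := hz
      refine ⟨Fin.cases ⟨h2, by simpa [h3] using h1⟩ fun i => ⟨(h4 i).1, (h4 i).2.trans h1⟩,
        fun i j hij => ?_⟩
      obtain ⟨j, rfl⟩ := Fin.exists_succ_eq.2 (Fin.pos_iff_ne_zero.1 ((Fin.zero_le i).trans_lt hij))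
      cases i using Fin.cases with
      | zero => simpa [h3] using (h4 j).2
      | succ i => simpa using h5 (Fin.succ_lt_succ_iff.1 hij)
    · obtain ⟨e, a, b⟩ := z
      simp only [mem_sigma, mem_Mon] at hz
      obtain rfl : a.natDegree = e := hz.2.1.2
      simp

lemma Red_fmzv (s : List ℕ) : (Wlt (SS F RatFunc.X) s, fmzv F s) ∈ Red F := by
  refine ⟨_, rfl, Eventually.of_forall fun P => ?_⟩
  rw [finsum_eq_Wlt fun n a => (AdjoinRoot.mk P.1 a)⁻¹ ^ n]
  suffices h : ∀ D ≤ P.1.natDegree, (Wlt (SS F RatFunc.X) s D,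
      Wlt (fun n d => ∑ a ∈ Mon F d, (AdjoinRoot.mk P.1 a)⁻¹ ^ n) s D) ∈ RP P from h _ le_rfl
  induction s with
  | nil => exact fun _ _ => one_mem _
  | cons n s ih =>
    intro D hD
    rw [Wlt, Wlt, prod_mk_sum]
    exact sum_mem fun e he => mul_mem (RP_SS P n ((mem_range.1 he).trans_le hD))
      (ih e ((mem_range.1 he).le.trans hD))

end Pool.Agent.MP_3924c3_nt
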