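import Pool.Agent.MP_3924c3_nt.Height

/-! Relations of bounded degree that can be pulled back forever are trivial. -/

open Finset Polynomial

namespace Pool.Agent.MP_3924c3_nt

open Pool.Agent.MP_cbe134_nt.FF

section pull

variable {R S : Type*} [CommRing R] [Fintype S]

/-- pulling a relation back by one level -/
noncomputable def pull (q : ℕ) (t : R) (wt : S → ℕ) (m : S → S → R[X]) (β : S → R[X]) :
    S → R[X] := fun B => (C t - X) ^ wt B * expand R q (β B + ∑ A, β A * m A B)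

lemma sum_pull (q : ℕ) (t y : R) (wt : S → ℕ) (m : S → S → R[X]) (β : S → R[X]) {T T' : S → R}
    (h : ∀ A, T' A = (t - y) ^ wt A * T A + ∑ B, (m A B).eval (y ^ q) * ((t - y) ^ wt B * T B)) :
    ∑ A, (pull q t wt m β A).eval y * T A = ∑ A, (β A).eval (y ^ q) * T' A := by
  simp only [pull, h, eval_mul, eval_pow, eval_sub, eval_C, eval_X, expand_eval, eval_add,
    eval_finsetSum, mul_add, add_mul, sum_add_distrib, mul_sum, sum_mul]
  congr 1
  · exact sum_congr rfl fun A _ => by ring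
  · rw [sum_comm]
    exact sum_congr rfl fun A _ => sum_congr rfl fun B _ => by ring

lemma pull_top {q : ℕ} {t : R} {wt len : S → ℕ} {m : S → S → R[X]} {β : S → R[X]} {r : ℕ}
    (hm : ∀ A B, m A B ≠ 0 → len A = len B + 1) (h : ∀ A, β A ≠ 0 → len A ≤ r) {B : S}
    (hB : r ≤ len B) : pull q t wt m β B = (C t - X) ^ wt B * expand R q (β B) := by
  rw [pull, sum_eq_zero, add_zero]
  intro A _
  by_contra h0
  have := hm A B (right_ne_zero_of_mul h0)
  have := h A (left_ne_zero_of_mul h0)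
  omega

end pull

variable {F k : Type*} [Field F] [Fintype F] [Field k] [Algebra F k] {t : k}
  {S : Type*} [Fintype S] {len wt : S → ℕ} {m : S → S → k[X]}

theorem seq_indep (ht : Tr F t) (N : ℕ → Submodule k[X] (S → k[X])) (D : ℕ)
    (hpull : ∀ n, ∀ β ∈ N n, pull (qq F) t wt m β ∈ N (n + 1))
    (hD : ∀ n, ∀ β ∈ N n, β ≠ 0 → ∃ β' ∈ N n, β' ≠ 0 ∧ (∀ A, β' A ≠ 0 → β A ≠ 0) ∧
      ∀ A, (β' A).natDegree ≤ D)
    (hm : ∀ A B, m A B ≠ 0 → len A = len B + 1)
    (hr : ∀ A B, len A = 0 → len B = 0 → wt A = wt B → A = B)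
    (h0 : ∀ n, ∀ β ∈ N n, ∀ A, len A = 0 → (∀ B, β B ≠ 0 → B = A) → β = 0)
    (hex : ∀ (n w : ℕ) (c : S → k), (∀ A, c A ≠ 0 → len A = n + 1 ∧ wt A = w) →
      (∀ B s, 1 ≤ s → wt B + s = w → ∃ b, Rel (qq F) t s b (∑ A, C (c A) * m A B)) → c = 0)
    (n : ℕ) (β : S → k[X]) (hβ : β ∈ N n) : β = 0 := by
  classical
  have hq := two_le_q (F := F)
  suffices H : ∀ r n, ∀ β ∈ N n, (∀ A, β A ≠ 0 → len A < r) → β = 0 from
    H (univ.sup len + 1) n β hβ fun A _ => Nat.lt_succ_of_le (le_sup (mem_univ A))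
  clear hβ β n
  intro r
  induction r with
  | zero => exact fun n β _ h => funext fun A => by_contra fun e => absurd (h A e) (by omega)
  | succ r ihr =>
  suffices H : ∀ (T : Finset S) n, ∀ β ∈ N n, (∀ A, β A ≠ 0 → len A < r ∨ len A = r ∧ A ∈ T) →
      β = 0 from fun n β hβ h => H univ n β hβ fun A hA => by have := h A hA; simp; omega
  intro T
  induction T using Finset.induction_on with
  | empty => exact fun n β hβ h => ihr n β hβ fun A hA => by simpa using h A hA
  | insert A₀ T hA₀ ih =>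
  intro n β hβ hT
  by_contra hne
  let G : ℕ → (S → k[X]) → Prop := fun i δ =>
    δ ∈ N (n + i) ∧ ∀ A, δ A ≠ 0 → len A < r ∨ len A = r ∧ A ∈ insert A₀ T
  have g0 : ∀ i δ, G i δ → δ A₀ = 0 → δ = 0 := fun i δ h e => ih _ δ h.1 fun A hA => by
    rcases h.2 A hA with h1 | ⟨h1, h2⟩
    · exact Or.inl h1
    · exact Or.inr ⟨h1, (mem_insert.1 h2).resolve_left fun e' => hA (e' ▸ e)⟩
  have hl : len A₀ = r := by
    by_contra e
    refine hne (ih n β hβ fun A hA => (hT A hA).imp_right fun ⟨h1, h2⟩ => ⟨h1, ?_⟩)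
    exact (mem_insert.1 h2).resolve_left fun e' => e (e' ▸ h1)
  have g1 : ∀ i δ, G i δ → ∀ B, r ≤ len B →
      pull (qq F) t wt m δ B = (C t - X) ^ wt B * expand k (qq F) (δ B) :=
    fun i δ h B hB => pull_top hm (fun A hA => by have := h.2 A hA; omega) hB
  have g2 : ∀ i δ, G i δ → G (i + 1) (pull (qq F) t wt m δ) := fun i δ h =>
    ⟨hpull _ _ h.1, fun A hA => by
      by_cases e : len A < r
      · exact Or.inl e
      · rw [g1 i δ h A (by omega)] at hA
        exact h.2 A fun e => hA (by simp [e])⟩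
  have g3 : ∀ i, ∃ δ, G i δ ∧ δ ≠ 0 := fun i => by
    induction i with
    | zero => exact ⟨β, ⟨hβ, hT⟩, hne⟩
    | succ i ihi =>
      obtain ⟨δ, h1, h2⟩ := ihi
      refine ⟨_, g2 i δ h1, fun e => h2 (g0 i δ h1 ?_)⟩
      have := congrFun e A₀
      rw [g1 i δ h1 A₀ hl.ge, Pi.zero_apply, mul_eq_zero, expand_eq_zero (by omega)] at this
      exact this.resolve_left (pow_ne_zero _ (Y_ne t))
  have g4 : ∀ i, ∃ δ, G i δ ∧ δ A₀ ≠ 0 ∧ ∀ A, (δ A).natDegree ≤ D := fun i => by
    obtain ⟨δ, h1, h2⟩ := g3 i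
    obtain ⟨δ', h3, h4, h5, h6⟩ := hD _ δ h1.1 h2
    have : G i δ' := ⟨h3, fun A hA => h1.2 A (h5 A hA)⟩
    exact ⟨δ', this, fun e => h4 (g0 i δ' this e), h6⟩
  choose γ hγ hf hd using g4
  have g5 : ∀ i A, γ (i + 1) A₀ * pull (qq F) t wt m (γ i) A =
      (C t - X) ^ wt A₀ * expand k (qq F) (γ i A₀) * γ (i + 1) A := fun i A => by
    have h1 := g2 i _ (hγ i)
    have := congrFun (g0 (i + 1) (γ (i + 1) A₀ • pull (qq F) t wt m (γ i) -
        pull (qq F) t wt m (γ i) A₀ • γ (i + 1))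
      ⟨sub_mem (Submodule.smul_mem _ _ h1.1) (Submodule.smul_mem _ _ (hγ _).1), fun B hB => by
        by_cases e : γ (i + 1) B = 0
        · exact h1.2 B fun e' => hB (by simp [e, e'])
        · exact (hγ _).2 B e⟩ (by simp [mul_comm])) A
    rw [← g1 i _ (hγ i) A₀ hl.ge]
    simpa [sub_eq_zero] using this
  have g6 : ∀ A, ∃ c : k, (c ≠ 0 → len A = r ∧ wt A = wt A₀) ∧
      (len A = r → ∀ i, γ i A = C c * γ i A₀) := fun A => by
    by_cases e : len A = r
    swap
    · exact ⟨0, by simp, by simp [e]⟩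
    have h1 : ∀ i, γ (i + 1) A₀ * expand k (qq F) (γ i A) * (C t - X) ^ wt A =
        γ (i + 1) A * expand k (qq F) (γ i A₀) * (C t - X) ^ wt A₀ := fun i => by
      have := g5 i A
      rw [g1 i _ (hγ i) A e.ge] at this
      linear_combination this
    by_cases e0 : γ 0 A = 0
    · refine ⟨0, by simp, fun _ i => ?_⟩
      induction i with
      | zero => simp [e0]
      | succ i ihi =>
        have := h1 i
        rw [ihi, C_0, zero_mul, map_zero, mul_zero, zero_mul, eq_comm, mul_eq_zero, mul_eq_zero,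
          expand_eq_zero (by omega)] at this
        simpa [hf i, Y_ne t] using this
    · obtain ⟨h2, c, h3⟩ := height ht (f := fun i => γ i A₀) (g := fun i => γ i A) hf e0
        (fun i => hd i _) (fun i => hd i _) h1
      exact ⟨c, fun _ => ⟨e, h2⟩, fun _ => h3⟩
  choose c hc hc' using g6
  have hc0 : c A₀ ≠ 0 := fun e => hf 0 (by rw [hc' A₀ hl 0, e, C_0, zero_mul])
  rcases r with _ | r
  · refine hf 0 (congrFun (h0 _ _ (hγ 0).1 A₀ hl fun B hB => ?_) A₀)
    have h1 : len B = 0 := by have := (hγ 0).2 B hB; omega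
    exact hr _ _ h1 hl (hc B fun e => hB (by rw [hc' B h1 0, e, C_0, zero_mul])).2
  refine hc0 (neg_eq_zero.1 (congrFun (hex r (wt A₀) (-c) (fun A hA => hc A (by simpa using hA))
    fun B s hs hw => ?_) A₀))
  have h1 : ∑ A, C ((-c) A) * m A B = -∑ A, C (c A) * m A B := by simp
  rw [h1]
  by_cases e : len B = r
  swap
  · refine ⟨0, ?_⟩
    rw [sum_eq_zero fun A _ => by
      by_contra h
      have := hm A B (right_ne_zero_of_mul h)
      have := (hc A (C_ne_zero.1 (left_ne_zero_of_mul h))).1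
      omega]
    simp [MP_cbe134_nt.FF.Rel]
  refine height_exact ht hs (f := fun i => γ i A₀) (g := fun i => γ i B) hf (fun i => hd i _)
    (fun i => hd i _) fun i => mul_left_cancel₀ (pow_ne_zero (wt B) (Y_ne t)) ?_
  have h2 : ∑ A, γ i A * m A B = γ i A₀ * ∑ A, C (c A) * m A B := by
    rw [mul_sum]
    refine sum_congr rfl fun A _ => ?_
    by_cases h : m A B = 0
    · simp [h]
    · rw [hc' A (by rw [hm A B h, e]) i]
      ring
  have := g5 i B
  rw [pull, h2, ← hw, pow_add] at this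
  linear_combination this

end Pool.Agent.MP_3924c3_nt
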