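import Pool.Agent.MP_3924c3_nt.ModP
import Pool.Agent.MP_cbe134_nt.FFFormal

/-! The triangular system of the words in the generating letters. -/

open Finset Polynomial Filter

namespace Pool.Agent.MP_3924c3_nt

open Pool.Agent.MP_cbe134_nt.FF

variable {F k : Type*} [Field F] [Fintype F] [Field k] [Algebra F k] {t : k}
  {P : Let F t → F[X][X]}

lemma wtL_cons (l : Let F t) (L : List (Let F t)) : wtL (l :: L) = l.wt + wtL L := by simp [wtL]

/-- the normalised words -/
noncomputable def Tk (P : Let F t → F[X][X]) (A : ℕ × List (Let F t)) (d : ℕ) : k :=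
  LL F t d ^ (A.1 + wtL A.2) * Wlt (la P) A.2 (d + 1)

lemma Tk_nil (j d : ℕ) : Tk P (j, []) (d + 1) = (t - t ^ qq F ^ (d + 1)) ^ j * Tk P (j, []) d := by
  simp [Tk, wtL, Wlt, LL_succ, mul_pow, mul_comm]

lemma Tk_cons (ht : Tr F t) (j d : ℕ) (l : Let F t) (L : List (Let F t)) :
    Tk P (j, l :: L) (d + 1) = (t - t ^ qq F ^ (d + 1)) ^ (j + wtL (l :: L)) * Tk P (j, l :: L) d +
      aeval t ((P l).eval ((X ^ qq F ^ (d + 1)) ^ qq F)) *
        ((t - t ^ qq F ^ (d + 1)) ^ (j + wtL L) * Tk P (j, L) d) := by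
  have h := ht.LL_ne (d + 1)
  simp only [Tk, Wlt_cons, psum_succ _ (d + 1), Pi.mul_apply, la, lett_apply, ← eval_mp, map_pow,
    aeval_X, ← mul_assoc, ← mul_pow, mul_comm (t - _), ← LL_succ, wtL_cons]
  rw [← pow_mul, ← pow_mul, mul_comm (qq F), ← LL, mul_assoc _ (_ ^ _)]
  field_simp
  ring

lemma num_of_step {n c : ℕ} {x e : ℕ → k} (h0 : ∃ p : F[X], aeval t p = x 0)
    (he : ∀ d, ∃ p : F[X], aeval t p = e d ∧ p.natDegree ≤ c * qq F ^ (d + 2))
    (hx : ∀ d, x (d + 1) = (t - t ^ qq F ^ (d + 1)) ^ n * x d + e d) :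
    ∃ c, ∀ d, ∃ p : F[X], aeval t p = x d ∧ p.natDegree ≤ c * qq F ^ (d + 1) := by
  have hq := two_le_q (F := F)
  obtain ⟨p, hp⟩ := h0
  refine ⟨n + c + p.natDegree, fun d => ?_⟩
  induction d with
  | zero => exact ⟨p, hp, by rw [zero_add, pow_one]; nlinarith⟩
  | succ d ih =>
    obtain ⟨u, h1, h2⟩ := ih
    obtain ⟨v, h3, h4⟩ := he d
    refine ⟨(X - X ^ qq F ^ (d + 1)) ^ n * u + v, by simp [hx, h1, h3],
      (natDegree_add_le _ _).trans (max_le (natDegree_mul_le.trans ?_)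
        (h4.trans (Nat.mul_le_mul_right _ (by omega))))⟩
    have h5 : ((X - X ^ qq F ^ (d + 1) : F[X]) ^ n).natDegree ≤ n * qq F ^ (d + 1) :=
      natDegree_pow_le.trans (Nat.mul_le_mul_left _ ((natDegree_sub_le _ _).trans
        (by simpa using Nat.one_le_pow _ _ (by omega))))
    rw [pow_succ _ (d + 1)]
    generalize qq F ^ (d + 1) = Q at *
    have h6 := Nat.mul_le_mul_left ((n + c + p.natDegree) * Q) hq
    nlinarith [Nat.zero_le (c * Q), Nat.zero_le (p.natDegree * Q)]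

lemma exists_Tnum (ht : Tr F t) (j : ℕ) (L : List (Let F t)) : ∃ c, ∀ d, ∃ p : F[X],
    aeval t p = Tk P (j, L) d ∧ p.natDegree ≤ c * qq F ^ (d + 1) := by
  have hq := two_le_q (F := F)
  induction L with
  | nil =>
    exact num_of_step (c := 0) (e := 0) ⟨1, by simp [Tk, LL, ell, Wlt]⟩
      (fun d => ⟨0, by simp, by simp⟩) fun d => by rw [Tk_nil, Pi.zero_apply, add_zero]
  | cons l L ih =>
    obtain ⟨c, hc⟩ := ih
    obtain ⟨δ, hδ⟩ := deg_eval (P l)
    refine num_of_step (c := δ + (P l).natDegree + (j + wtL L) + c) ?_ (fun d => ?_)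
      fun d => Tk_cons ht j d l L
    · cases L with
      | nil => exact ⟨(P l).eval (X ^ qq F), by simp [Tk, LL, ell, Wlt, la, lett_zero, ← eval_mp]⟩
      | cons l' L => exact ⟨0, by simp [Tk, Wlt]⟩
    · obtain ⟨u, h1, h2⟩ := hc d
      refine ⟨(P l).eval ((X ^ qq F ^ (d + 1)) ^ qq F) * ((X - X ^ qq F ^ (d + 1)) ^ (j + wtL L) * u),
        by simp [h1], natDegree_mul_le.trans ((add_le_add_right natDegree_mul_le _).trans ?_)⟩
      have h5 : ((X - X ^ qq F ^ (d + 1) : F[X]) ^ (j + wtL L)).natDegree ≤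
          (j + wtL L) * qq F ^ (d + 1) :=
        natDegree_pow_le.trans (Nat.mul_le_mul_left _ ((natDegree_sub_le _ _).trans
          (by simpa using Nat.one_le_pow _ _ (by omega))))
      have h6 := hδ (qq F ^ (d + 2))
      have h7 : qq F ^ (d + 1) ≤ qq F ^ (d + 2) := Nat.pow_le_pow_right (by omega) (by omega)
      have h8 : 1 ≤ qq F ^ (d + 2) := Nat.one_le_pow _ _ (by omega)
      rw [← pow_mul, ← pow_succ]
      nlinarith [Nat.mul_le_mul_left δ h8, Nat.mul_le_mul_left (j + wtL L + c) h7]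

variable (F t) in
/-- the states of weight at most `W` -/
abbrev St (W : ℕ) : Type _ := {A : ℕ × List (Let F t) // A.1 + wtL A.2 ≤ W}

lemma finite_St (ht : Tr F t) (W : ℕ) : Finite (St F t W) := by
  refine Set.Finite.to_subtype (((Set.finite_Iic W).prod (ht.finite_words W)).subset ?_)
  rintro ⟨j, L⟩ (h : j + wtL L ≤ W)
  exact ⟨by simp only [Set.mem_Iic]; omega, by simp only [Set.mem_ofPred_eq]; omega⟩

open Classical in
/-- the transition matrix -/
noncomputable def mC (P : Let F t → F[X][X]) : ℕ × List (Let F t) → ℕ × List (Let F t) → F[X][X]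
  | (_, []), _ => 0
  | (j, l :: L), B => if B = (j, L) then P l else 0

lemma mC_ne {A B : ℕ × List (Let F t)} (h : mC P A B ≠ 0) : ∃ l, A = (B.1, l :: B.2) := by
  obtain ⟨j, _ | ⟨l, L⟩⟩ := A
  · exact absurd rfl h
  · obtain rfl : B = (j, L) := by_contra fun e => h (if_neg e)
    exact ⟨l, rfl⟩

theorem exists_sys (ht : Tr F t) (hP : Adapted F t P) (W : ℕ) [Fintype (St F t W)] :
    ∃ (T : ℕ → St F t W → F[X]) (c : ℕ), (∀ d A, aeval t (T d A) = Tk P A.1 d) ∧
      Sys t (fun A : St F t W => A.1.2.length) (fun A => A.1.1 + wtL A.1.2)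
        (fun A B => mC P A.1 B.1) T c := by
  classical
  choose c T h1 h2 using fun A : St F t W => exists_Tnum (P := P) ht A.1.1 A.1.2
  refine ⟨fun d A => T A d, univ.sup c, fun d A => h1 A d, fun d A => ht ?_,
    fun d A => (h2 A d).trans (Nat.mul_le_mul_right _ (le_sup (mem_univ A))), fun A B h => ?_,
    fun A B hA hB h => ?_, fun d A hA e => ?_, fun n w c hc h => ?_⟩
  · obtain ⟨⟨j, _ | ⟨l, L⟩⟩, hA⟩ := A
    · simp [h1, Tk_nil, mC, wtL]
    · have hB : j + wtL L ≤ W := by rw [wtL_cons] at hA; dsimp only at hA; omega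
      rw [sum_eq_single (⟨(j, L), hB⟩ : St F t W) (fun B _ hB' => by
        rw [mC, if_neg fun e => hB' (Subtype.ext e), eval_zero, zero_mul]) (by simp)]
      simp [h1, Tk_cons ht, mC]
  · obtain ⟨l, e⟩ := mC_ne h
    simp [e]
  · obtain ⟨⟨j, L⟩, _⟩ := A
    obtain ⟨⟨j', L'⟩, _⟩ := B
    obtain rfl := List.length_eq_zero_iff.1 hA
    obtain rfl := List.length_eq_zero_iff.1 hB
    obtain rfl : j = j' := h
    rfl
  · obtain ⟨⟨j, L⟩, hA'⟩ := A
    obtain rfl := List.length_eq_zero_iff.1 hA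
    have := h1 ⟨_, hA'⟩ d
    rw [e, map_zero, Tk, Wlt, mul_one] at this
    exact pow_ne_zero _ (ht.LL_ne d) this.symm
  · ext ⟨⟨j, L⟩, hA⟩
    by_contra h0
    obtain ⟨h3, h4⟩ := hc _ h0
    rcases L with _ | ⟨l, L⟩
    · simp at h3
    rw [wtL_cons] at h4 hA
    dsimp only at h4 hA
    obtain ⟨b, hb⟩ := h ⟨(j, L), by dsimp only; omega⟩ l.wt (ht.one_le_wt l) (by dsimp only; omega)
    let c' : Let F t → k := fun l' => if h : j + wtL (l' :: L) ≤ W then c ⟨(j, l' :: L), h⟩ else 0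
    let T := (finite_Let (F := F) (t := t) l.wt).toFinset.filter fun l' => l'.wt = l.wt
    have hT : ∀ l', l' ∈ T ↔ l'.wt = l.wt := fun l' => by
      simp only [T, mem_filter, Set.Finite.mem_toFinset, Set.mem_ofPred_eq]
      omega
    have e : ∑ l' ∈ T, c' l' • mp F t (P l') =
        ∑ A : St F t W, C (c A) * mp F t (mC P A.1 (j, L)) := by
      refine sum_bij_ne_zero (fun l' hl' _ => ⟨(j, l' :: L), by
        rw [wtL_cons, (hT l').1 hl']; exact hA⟩) (by simp) (fun a _ _ b _ _ e => by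
          simpa using congrArg Subtype.val e) (fun A _ h5 => ?_) fun l' hl' _ => ?_
      · obtain ⟨A, hA'⟩ := A
        obtain ⟨l', rfl⟩ := mC_ne (P := P) (A := A) (B := (j, L)) fun e => h5 (by simp [e, mp])
        have h6 := (hc _ (C_ne_zero.1 (left_ne_zero_of_mul h5))).2
        rw [wtL_cons] at h6
        refine ⟨l', (hT l').2 (by dsimp only at h6; omega), ?_, rfl⟩
        simpa [c', hA', mC, smul_eq_C_mul] using h5
      · have : j + wtL (l' :: L) ≤ W := by rw [wtL_cons, (hT l').1 hl']; exact hA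
        simp [c', this, mC, smul_eq_C_mul]
    have := hP.indep l.wt T c' (fun l' => (hT l').1)
      ⟨Submodule.sum_mem _ fun l' hl' => Submodule.smul_mem _ _ (by
        rw [← (hT l').1 hl']
        exact (hP.mem l').1), b, e ▸ hb⟩ l ((hT l).2 rfl)
    exact h0 (by simpa [c', wtL_cons, hA] using this)

end Pool.Agent.MP_3924c3_nt
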